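import Mathlib

/-! # Repetitions at the distances of a difference set: the basic inequality

Let `u` be a sequence in a finite set, `T` a finite set of `J` natural numbers `≤ M`. If in the mean
over the pairs `t < t'` in `T` at most `R` of the `n < N` satisfy `u n = u (n + t' - t)` (more
precisely, if the sum over these pairs is at most `J² R / 2`), then for every function
`0 ≤ f ≤ F` the sum of `f (u n)` over `n < N` is at most
`M F + √(N (∑ f²) (N / J + R + M))`. -/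

set_option autoImplicit false

open Finset

namespace Pool.Agent.N736.RR

lemma sum_shift_ge (g : ℕ → ℝ) (F : ℝ) (h0 : ∀ n, 0 ≤ g n) (hF : ∀ n, g n ≤ F) (N t : ℕ) :
    ∑ n ∈ range N, g n - t * F ≤ ∑ n ∈ range N, g (n + t) := by
  induction t with
  | zero => simp
  | succ t ih =>
    have h1 := Finset.sum_range_succ (fun n => g (n + t)) N
    have h2 := Finset.sum_range_succ' (fun n => g (n + t)) N
    have h3 : ∀ n, g (n + 1 + t) = g (n + (t + 1)) := fun n => by
      congr 1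
      ring
    simp only [h3] at h2
    have h4 := hF (0 + t)
    have h5 := h0 (N + t)
    push_cast
    linarith

lemma sum_shift_le (g : ℕ → ℝ) (F : ℝ) (h0 : ∀ n, 0 ≤ g n) (hF : ∀ n, g n ≤ F) (N t : ℕ) :
    ∑ n ∈ range N, g (n + t) ≤ ∑ n ∈ range N, g n + t * F := by
  induction t with
  | zero => simp
  | succ t ih =>
    have h1 := Finset.sum_range_succ (fun n => g (n + t)) N
    have h2 := Finset.sum_range_succ' (fun n => g (n + t)) N
    have h3 : ∀ n, g (n + 1 + t) = g (n + (t + 1)) := fun n => by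
      congr 1
      ring
    simp only [h3] at h2
    have h4 := h0 (0 + t)
    have h5 := hF (N + t)
    push_cast
    linarith

variable {α : Type*} [DecidableEq α]

/-- the number of `n < N` with `u n = u (n + r)` -/
def coin (u : ℕ → α) (r N : ℕ) : ℕ := ((range N).filter fun n => u n = u (n + r)).card

lemma coin_real (u : ℕ → α) (r N : ℕ) :
    (coin u r N : ℝ) = ∑ n ∈ range N, if u n = u (n + r) then (1 : ℝ) else 0 := by
  rw [coin, Finset.card_filter]
  push_cast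
  rfl

lemma coin_shift (u : ℕ → α) (t t' N : ℕ) (h : t ≤ t') :
    ∑ n ∈ range N, (if u (n + t) = u (n + t') then (1 : ℝ) else 0) ≤ coin u (t' - t) N + t := by
  have h1 := sum_shift_le (fun n => if u n = u (n + (t' - t)) then (1 : ℝ) else 0) 1
    (fun n => by split_ifs <;> norm_num) (fun n => by split_ifs <;> norm_num) N t
  rw [coin_real]
  have h2 : ∀ n, n + t + (t' - t) = n + t' := fun n => by omega
  simp only [h2, mul_one] at h1
  exact h1

/-- the sum over the pairs of `T` of the numbers of repetitions -/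
def pairSum (c : ℕ → ℕ) (T : Finset ℕ) : ℕ := ∑ t ∈ T, ∑ t' ∈ T.filter (fun t' => t < t'), c (t' - t)

lemma sum_symm (T : Finset ℕ) (g : ℕ → ℕ → ℝ) (hg : ∀ t t', g t t' = g t' t) :
    ∑ t ∈ T, ∑ t' ∈ T, g t t' =
      ∑ t ∈ T, g t t + 2 * ∑ t ∈ T, ∑ t' ∈ T.filter (fun t' => t < t'), g t t' := by
  have h1 : ∀ t ∈ T, ∑ t' ∈ T, g t t' = g t t + ∑ t' ∈ T.filter (fun t' => t < t'), g t t' +
      ∑ t' ∈ T.filter (fun t' => t' < t), g t t' := by
    intro t ht
    rw [Finset.sum_filter, Finset.sum_filter]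
    have h2 : g t t = ∑ t' ∈ T, if t' = t then g t t' else 0 := by
      rw [Finset.sum_ite_eq' T t, if_pos ht]
    rw [h2, ← Finset.sum_add_distrib, ← Finset.sum_add_distrib]
    refine Finset.sum_congr rfl fun t' _ => ?_
    rcases lt_trichotomy t t' with h | h | h
    · rw [if_neg (by omega), if_pos h, if_neg (by omega)]
      ring
    · rw [if_pos h.symm, if_neg (by omega), if_neg (by omega)]
      ring
    · rw [if_neg (by omega), if_neg (by omega), if_pos h]
      ring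
  rw [Finset.sum_congr rfl h1, Finset.sum_add_distrib, Finset.sum_add_distrib]
  have h2 : ∑ t ∈ T, ∑ t' ∈ T.filter (fun t' => t' < t), g t t' =
      ∑ t ∈ T, ∑ t' ∈ T.filter (fun t' => t < t'), g t t' := by
    simp only [Finset.sum_filter]
    rw [Finset.sum_comm]
    refine Finset.sum_congr rfl fun t _ => Finset.sum_congr rfl fun t' _ => ?_
    rw [hg t' t]
  rw [h2]
  ring

lemma pairs_le (u : ℕ → α) (T : Finset ℕ) (M N : ℕ) (R : ℝ) (hM : ∀ t ∈ T, t ≤ M)
    (hR : (pairSum (fun r => coin u r N) T : ℝ) ≤ (T.card : ℝ) ^ 2 / 2 * R) :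
    ∑ n ∈ range N, ∑ t ∈ T, ∑ t' ∈ T, (if u (n + t) = u (n + t') then (1 : ℝ) else 0) ≤
      T.card * N + (T.card : ℝ) ^ 2 * (R + M) := by
  have h0 : ∑ n ∈ range N, ∑ t ∈ T, ∑ t' ∈ T, (if u (n + t) = u (n + t') then (1 : ℝ) else 0) =
      ∑ t ∈ T, ∑ t' ∈ T, ∑ n ∈ range N, (if u (n + t) = u (n + t') then (1 : ℝ) else 0) := by
    rw [Finset.sum_comm]
    refine Finset.sum_congr rfl fun t _ => ?_
    rw [Finset.sum_comm]
  rw [h0, sum_symm T (fun t t' => ∑ n ∈ range N, if u (n + t) = u (n + t') then (1 : ℝ) else 0)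
    (fun t t' => Finset.sum_congr rfl fun n _ => by simp only [eq_comm])]
  have h1 : ∑ t ∈ T, ∑ n ∈ range N, (if u (n + t) = u (n + t) then (1 : ℝ) else 0) =
      T.card * N := by
    simp
  have hM0 : (0 : ℝ) ≤ M := Nat.cast_nonneg M
  have h2 : ∑ t ∈ T, ∑ t' ∈ T.filter (fun t' => t < t'), ∑ n ∈ range N,
      (if u (n + t) = u (n + t') then (1 : ℝ) else 0) ≤
      (pairSum (fun r => coin u r N) T : ℝ) +
        ∑ t ∈ T, ∑ t' ∈ T.filter (fun t' => t < t'), (M : ℝ) := by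
    rw [pairSum]
    push_cast
    rw [← Finset.sum_add_distrib]
    refine Finset.sum_le_sum fun t ht => ?_
    rw [← Finset.sum_add_distrib]
    refine Finset.sum_le_sum fun t' ht' => ?_
    rw [mem_filter] at ht'
    have h3 := coin_shift u t t' N ht'.2.le
    have h5 : (t : ℝ) ≤ M := by exact_mod_cast hM t ht
    linarith
  have h3 : ∑ t ∈ T, ∑ t' ∈ T, (M : ℝ) = ∑ t ∈ T, (M : ℝ) +
      2 * ∑ t ∈ T, ∑ t' ∈ T.filter (fun t' => t < t'), (M : ℝ) :=
    sum_symm T (fun _ _ => (M : ℝ)) (fun _ _ => rfl)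
  have h4 : ∑ t ∈ T, ∑ t' ∈ T, (M : ℝ) = (T.card : ℝ) ^ 2 * M := by
    rw [Finset.sum_const, Finset.sum_const, nsmul_eq_mul, nsmul_eq_mul]
    ring
  have h5 : (0 : ℝ) ≤ ∑ t ∈ T, (M : ℝ) := Finset.sum_nonneg fun _ _ => hM0
  rw [h1]
  nlinarith

lemma pairSum_le (c : ℕ → ℕ) (T : Finset ℕ) (R : ℝ) (hR0 : 0 ≤ R)
    (hR : ∀ t ∈ T, ∀ t' ∈ T, t < t' → (c (t' - t) : ℝ) ≤ R) :
    (pairSum c T : ℝ) ≤ (T.card : ℝ) ^ 2 / 2 * R := by
  have h1 : (pairSum c T : ℝ) ≤ ∑ t ∈ T, ∑ t' ∈ T.filter (fun t' => t < t'), R := by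
    rw [pairSum]
    push_cast
    refine Finset.sum_le_sum fun t ht => Finset.sum_le_sum fun t' ht' => ?_
    rw [mem_filter] at ht'
    exact hR t ht t' ht'.1 ht'.2
  have h3 : ∑ t ∈ T, ∑ t' ∈ T, R = ∑ t ∈ T, R +
      2 * ∑ t ∈ T, ∑ t' ∈ T.filter (fun t' => t < t'), R :=
    sum_symm T (fun _ _ => R) (fun _ _ => rfl)
  have h4 : ∑ t ∈ T, ∑ t' ∈ T, R = (T.card : ℝ) ^ 2 * R := by
    rw [Finset.sum_const, Finset.sum_const, nsmul_eq_mul, nsmul_eq_mul]
    ring
  have h5 : (0 : ℝ) ≤ ∑ t ∈ T, R := Finset.sum_nonneg fun _ _ => hR0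
  nlinarith

/-- the basic inequality -/
theorem basic [Fintype α] (u : ℕ → α) (f : α → ℝ) (F : ℝ) (hf0 : ∀ a, 0 ≤ f a)
    (hfF : ∀ a, f a ≤ F) (T : Finset ℕ) (M N : ℕ) (R : ℝ) (hT : 0 < T.card)
    (hM : ∀ t ∈ T, t ≤ M)
    (hR : (pairSum (fun r => coin u r N) T : ℝ) ≤ (T.card : ℝ) ^ 2 / 2 * R) :
    ∑ n ∈ range N, f (u n) ≤
      M * F + Real.sqrt (N * (∑ a, f a ^ 2) * (N / T.card + R + M)) := by
  have hJ : (0 : ℝ) < T.card := by exact_mod_cast hT
  have hF0 : 0 ≤ F := (hf0 (u 0)).trans (hfF (u 0))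
  set X : ℝ := ∑ n ∈ range N, ∑ t ∈ T, f (u (n + t)) with hX
  -- lower bound for `X`
  have h1 : T.card * (∑ n ∈ range N, f (u n) - M * F) ≤ X := by
    rw [hX, Finset.sum_comm, ← nsmul_eq_mul, ← Finset.sum_const]
    refine Finset.sum_le_sum fun t ht => ?_
    have h2 := sum_shift_ge (fun n => f (u n)) F (fun n => hf0 _) (fun n => hfF _) N t
    have h3 : (t : ℝ) ≤ M := by exact_mod_cast hM t ht
    have h4 : (t : ℝ) * F ≤ M * F := mul_le_mul_of_nonneg_right h3 hF0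
    linarith
  -- Cauchy–Schwarz
  set c : ℕ → α → ℝ := fun n a => ∑ t ∈ T, if u (n + t) = a then (1 : ℝ) else 0 with hc
  have h5 : X = ∑ p ∈ range N ×ˢ (univ : Finset α), c p.1 p.2 * f p.2 := by
    rw [Finset.sum_product, hX]
    refine Finset.sum_congr rfl fun n _ => ?_
    simp only [hc, Finset.sum_mul]
    rw [Finset.sum_comm]
    refine Finset.sum_congr rfl fun t _ => ?_
    simp [ite_mul]
  have h6 : X ^ 2 ≤ (∑ p ∈ range N ×ˢ (univ : Finset α), c p.1 p.2 ^ 2) *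
      ∑ p ∈ range N ×ˢ (univ : Finset α), f p.2 ^ 2 := by
    rw [h5]
    exact Finset.sum_mul_sq_le_sq_mul_sq _ _ _
  have h7 : ∑ p ∈ range N ×ˢ (univ : Finset α), f p.2 ^ 2 = N * ∑ a, f a ^ 2 := by
    rw [Finset.sum_product]
    simp only [Finset.sum_const, card_range, nsmul_eq_mul]
  have h8 : ∑ p ∈ range N ×ˢ (univ : Finset α), c p.1 p.2 ^ 2 =
      ∑ n ∈ range N, ∑ t ∈ T, ∑ t' ∈ T, (if u (n + t) = u (n + t') then (1 : ℝ) else 0) := by
    rw [Finset.sum_product]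
    refine Finset.sum_congr rfl fun n _ => ?_
    have e : ∀ a, c n a ^ 2 = ∑ t ∈ T, ∑ t' ∈ T,
        (if u (n + t) = a then (1 : ℝ) else 0) * (if u (n + t') = a then (1 : ℝ) else 0) := by
      intro a
      rw [hc, sq, Finset.sum_mul_sum]
    simp only [e]
    rw [Finset.sum_comm]
    refine Finset.sum_congr rfl fun t _ => ?_
    rw [Finset.sum_comm]
    refine Finset.sum_congr rfl fun t' _ => ?_
    simp only [ite_mul, one_mul, zero_mul]
    rw [Finset.sum_ite_eq]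
    simp only [mem_univ, if_true]
    simp only [eq_comm]
  have h9 := pairs_le u T M N R hM hR
  have hS : 0 ≤ ∑ a, f a ^ 2 := Finset.sum_nonneg fun a _ => sq_nonneg _
  have hN0 : (0 : ℝ) ≤ N := Nat.cast_nonneg N
  have h10 : X ^ 2 ≤ (T.card : ℝ) ^ 2 * (N * (∑ a, f a ^ 2) * (N / T.card + R + M)) := by
    rw [h7, h8] at h6
    refine h6.trans ?_
    refine (mul_le_mul_of_nonneg_right h9 (by positivity)).trans (le_of_eq ?_)
    field_simp
    ring
  have h11 : X ≤ T.card * Real.sqrt (N * (∑ a, f a ^ 2) * (N / T.card + R + M)) := by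
    have h12 : X ≤ Real.sqrt (X ^ 2) := Real.le_sqrt_of_sq_le le_rfl
    refine h12.trans ((Real.sqrt_le_sqrt h10).trans (le_of_eq ?_))
    rw [Real.sqrt_mul (by positivity), Real.sqrt_sq hJ.le]
  have h13 : T.card * (∑ n ∈ range N, f (u n) - M * F) ≤
      T.card * Real.sqrt (N * (∑ a, f a ^ 2) * (N / T.card + R + M)) := h1.trans h11
  have h14 := le_of_mul_le_mul_left h13 hJ
  linarith

end Pool.Agent.N736.RR
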