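import Pool.Agent.N736.RR.Seq
import Pool.Agent.N915.ML.Fin

/-! # Rare repetitions: real numbers -/

set_option autoImplicit false

open Finset Filter Topology

namespace Pool.Agent.N736.RR

open Pool.Agent.N915.ML (digit count IsWord val Freq Normal word_iff iff_multiples)

lemma digit_nonneg (b : ℕ) (hb : 1 ≤ b) (x : ℝ) (i : ℕ) : 0 ≤ digit b x i :=
  Int.emod_nonneg _ (by exact_mod_cast (by omega : b ≠ 0))

lemma digit_lt (b : ℕ) (hb : 1 ≤ b) (x : ℝ) (i : ℕ) : digit b x i < b :=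
  Int.emod_lt_of_pos _ (by exact_mod_cast (by omega : 0 < b))

/-- the digits as elements of `Fin b` -/
noncomputable def dig (b : ℕ) (hb : 1 ≤ b) (x : ℝ) (n : ℕ) : Fin b :=
  ⟨(digit b x (n + 1)).toNat, by
    have h1 := digit_nonneg b hb x (n + 1)
    have h2 := digit_lt b hb x (n + 1)
    omega⟩

lemma dig_val (b : ℕ) (hb : 1 ≤ b) (x : ℝ) (n : ℕ) : ((dig b hb x n : ℕ) : ℤ) = digit b x (n + 1) := by
  simp only [dig]
  exact Int.toNat_of_nonneg (digit_nonneg b hb x (n + 1))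

lemma dig_eq_iff (b : ℕ) (hb : 1 ≤ b) (x : ℝ) (m n : ℕ) :
    dig b hb x m = dig b hb x n ↔ digit b x (m + 1) = digit b x (n + 1) := by
  rw [← dig_val b hb x m, ← dig_val b hb x n, Fin.ext_iff]
  exact Nat.cast_inj.symm

lemma card_shift (P : ℕ → Prop) [DecidablePred P] (N : ℕ) :
    ((Icc 1 N).filter P).card = ((range N).filter fun n => P (n + 1)).card := by
  refine (card_bij (fun n _ => n + 1) ?_ ?_ ?_).symm
  · intro n hn
    rw [mem_filter, mem_range] at hn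
    rw [mem_filter, mem_Icc]
    exact ⟨⟨by omega, by omega⟩, hn.2⟩
  · intro a _ c _ h1
    simpa using h1
  · intro i hi
    rw [mem_filter, mem_Icc] at hi
    refine ⟨i - 1, ?_, by omega⟩
    rw [mem_filter, mem_range, Nat.sub_add_cancel hi.1.1]
    exact ⟨by omega, hi.2⟩

/-- the number of `1 ≤ i ≤ N` such that the same word of length `k` stands at the places `i` and
`i + r` -/
noncomputable def repR (b : ℕ) (x : ℝ) (r k N : ℕ) : ℕ :=
  ((Icc 1 N).filter fun i => ∀ j < k, digit b x (i + j) = digit b x (i + r + j)).card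

lemma repR_eq (b : ℕ) (hb : 1 ≤ b) (x : ℝ) (r k N : ℕ) :
    repR b x r k N = rep (dig b hb x) r k N := by
  rw [repR, card_shift, rep]
  congr 1
  refine Finset.filter_congr fun n _ => ?_
  refine forall_congr' fun j => forall_congr' fun _ => ?_
  rw [dig_eq_iff, show n + 1 + j = n + j + 1 by ring, show n + 1 + r + j = n + r + j + 1 by ring]

/-- the word over `Fin b` which belongs to a word of integers -/
def toFin (b l : ℕ) (w : ℕ → ℤ) (h : IsWord b l w) : Fin l → Fin b := fun j => ⟨(w j).toNat, by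
  have h1 := h j j.2
  omega⟩

lemma count_occ (b : ℕ) (hb : 1 ≤ b) (x : ℝ) (l : ℕ) (w : ℕ → ℤ) (h : IsWord b l w) (N : ℕ) :
    count b x l w N = occ (dig b hb x) (toFin b l w h) N := by
  rw [count, card_shift, occ]
  congr 1
  refine Finset.filter_congr fun n _ => ?_
  have h2 : ∀ j : Fin l, dig b hb x (n + j) = toFin b l w h j ↔ digit b x (n + 1 + j) = w j := by
    intro j
    have h3 := h j j.2
    rw [show n + 1 + (j : ℕ) = n + j + 1 by ring, ← dig_val b hb x, Fin.ext_iff]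
    simp only [toFin]
    omega
  constructor
  · intro h3
    funext j
    exact (h2 j).2 (h3 j j.2)
  · intro h3 j hj
    exact (h2 ⟨j, hj⟩).1 (congrFun h3 ⟨j, hj⟩)

/-- the word of integers which belongs to a word over `Fin b` -/
def toInt {b l : ℕ} (v : Fin l → Fin b) : ℕ → ℤ := fun j => if h : j < l then ((v ⟨j, h⟩ : ℕ) : ℤ) else 0

lemma toInt_isWord {b l : ℕ} (v : Fin l → Fin b) : IsWord b l (toInt v) := by
  intro j hj
  rw [toInt, dif_pos hj]
  refine ⟨by positivity, ?_⟩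
  exact_mod_cast (v ⟨j, hj⟩).2

lemma toFin_toInt {b l : ℕ} (v : Fin l → Fin b) : toFin b l (toInt v) (toInt_isWord v) = v := by
  funext j
  apply Fin.ext
  simp only [toFin, toInt, j.2, dif_pos, Int.toNat_natCast]

lemma normal_iff (b : ℕ) (hb : 1 ≤ b) (x : ℝ) : Normal b x ↔ Norm (dig b hb x) := by
  constructor
  · intro h l v
    rcases Nat.eq_zero_or_pos l with hl | hl
    · subst hl
      have h1 : ∀ N : ℕ, occ (dig b hb x) v N = N := by
        intro N
        rw [occ, Finset.filter_true_of_mem, card_range]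
        intro n _
        exact Subsingleton.elim _ _
      have h2 : (fun N : ℕ => (occ (dig b hb x) v N : ℝ) / N) =ᶠ[atTop] fun _ => 1 / (b : ℝ) ^ 0 := by
        filter_upwards [eventually_ge_atTop 1] with N hN
        have hN1 : (0 : ℝ) < N := by exact_mod_cast hN
        rw [h1, pow_zero]
        field_simp
      exact (tendsto_congr' h2).mpr tendsto_const_nhds
    · have h1 := h l hl (toInt v) (toInt_isWord v)
      simp only [count_occ b hb x l (toInt v) (toInt_isWord v), toFin_toInt] at h1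
      exact h1
  · intro h k _ w hw
    have h1 := h k (toFin b k w hw)
    simp only [← count_occ b hb x k w hw] at h1
    exact h1

/-- the number of `0 ≤ n < N` such that `x` has an approximation with the denominator
`b ^ n (b ^ r - 1)` and an error less than `b ^ (-k)` over the denominator -/
noncomputable def nearR (b : ℕ) (x : ℝ) (r k N : ℕ) : ℕ := by
  classical
  exact ((range N).filter fun n => ∃ p : ℤ,
    |x - p / ((b : ℝ) ^ n * ((b : ℝ) ^ r - 1))| < 1 / ((b : ℝ) ^ (n + k) * ((b : ℝ) ^ r - 1))).card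

/-- the number of `1 ≤ i ≤ N` such that the `k` digits of `y` from the `i`-th on are all `0` or all
`b - 1` -/
noncomputable def runsR (b : ℕ) (y : ℝ) (k N : ℕ) : ℕ :=
  ((Icc 1 N).filter fun i => (∀ j < k, digit b y (i + j) = 0) ∨
    (∀ j < k, digit b y (i + j) = (b : ℤ) - 1)).card

lemma near_iff (b : ℕ) (hb : 2 ≤ b) (x : ℝ) (r k n : ℕ) (hr : 1 ≤ r) (p : ℤ) :
    |x - p / ((b : ℝ) ^ n * ((b : ℝ) ^ r - 1))| < 1 / ((b : ℝ) ^ (n + k) * ((b : ℝ) ^ r - 1)) ↔
      |(b : ℝ) ^ n * ((b : ℝ) ^ r - 1) * x - p| < 1 / (b : ℝ) ^ k := by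
  have hbR : (1 : ℝ) < b := by exact_mod_cast (by omega : 1 < b)
  have h1 : (0 : ℝ) < (b : ℝ) ^ r - 1 := by
    have := one_lt_pow₀ hbR (by omega : r ≠ 0)
    linarith
  have h2 : (0 : ℝ) < (b : ℝ) ^ n := by positivity
  have h3 : (0 : ℝ) < (b : ℝ) ^ k := by positivity
  have h4 : (b : ℝ) ^ n * ((b : ℝ) ^ r - 1) * x - p =
      ((b : ℝ) ^ n * ((b : ℝ) ^ r - 1)) * (x - p / ((b : ℝ) ^ n * ((b : ℝ) ^ r - 1))) := by
    field_simp
  have h5 : 1 / (b : ℝ) ^ k = ((b : ℝ) ^ n * ((b : ℝ) ^ r - 1)) *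
      (1 / ((b : ℝ) ^ (n + k) * ((b : ℝ) ^ r - 1))) := by
    rw [pow_add]
    field_simp
  rw [h4, h5, abs_mul, abs_of_pos (mul_pos h2 h1)]
  exact (mul_lt_mul_iff_right₀ (mul_pos h2 h1)).symm

/-- a repetition is an approximation -/
lemma repR_le_nearR (b : ℕ) (hb : 2 ≤ b) (x : ℝ) (r k N : ℕ) (hr : 1 ≤ r) :
    repR b x r k N ≤ nearR b x r k N := by
  classical
  have hb1 : 1 ≤ b := by omega
  have hbR : (0 : ℝ) < b := by exact_mod_cast (by omega : 0 < b)
  rw [repR, card_shift, nearR]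
  refine Finset.card_le_card fun n hn => ?_
  rw [mem_filter] at hn ⊢
  refine ⟨hn.1, ?_⟩
  have h1 := hn.2
  set w : ℕ → ℤ := fun j => digit b x (n + 1 + j) with hw
  have hword : IsWord b k w := fun j _ => ⟨digit_nonneg b hb1 x _, digit_lt b hb1 x _⟩
  have h2 := (word_iff b hb1 w (x * (b : ℝ) ^ n) k hword).1 (fun j _ => by
    rw [mul_assoc, ← pow_add]
    show ⌊x * (b : ℝ) ^ (n + (j + 1))⌋ % (b : ℤ) = ⌊x * (b : ℝ) ^ (n + 1 + j)⌋ % (b : ℤ)
    rw [show n + (j + 1) = n + 1 + j by ring])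
  have h3 := (word_iff b hb1 w (x * (b : ℝ) ^ (n + r)) k hword).1 (fun j hj => by
    have h4 := h1 j hj
    rw [mul_assoc, ← pow_add]
    show ⌊x * (b : ℝ) ^ (n + r + (j + 1))⌋ % (b : ℤ) = digit b x (n + 1 + j)
    rw [h4]
    show _ = ⌊x * (b : ℝ) ^ (n + 1 + r + j)⌋ % (b : ℤ)
    rw [show n + r + (j + 1) = n + 1 + r + j by ring])
  set z1 : ℤ := ⌊x * (b : ℝ) ^ n⌋
  set z2 : ℤ := ⌊x * (b : ℝ) ^ (n + r)⌋
  refine ⟨z2 - z1, ?_⟩
  rw [near_iff b hb x r k n hr]
  have hk : (0 : ℝ) < (b : ℝ) ^ k := by positivity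
  have h4 := Int.floor_le (x * (b : ℝ) ^ n * (b : ℝ) ^ k)
  have h5 := Int.lt_floor_add_one (x * (b : ℝ) ^ n * (b : ℝ) ^ k)
  have h6 := Int.floor_le (x * (b : ℝ) ^ (n + r) * (b : ℝ) ^ k)
  have h7 := Int.lt_floor_add_one (x * (b : ℝ) ^ (n + r) * (b : ℝ) ^ k)
  rw [h2] at h4 h5
  rw [h3] at h6 h7
  push_cast at h4 h5 h6 h7 ⊢
  have habs : ∀ A : ℝ, |A| * (b : ℝ) ^ k = |A * (b : ℝ) ^ k| := fun A => by
    rw [abs_mul, abs_of_pos hk]
  rw [lt_div_iff₀ hk, habs]
  have e : ((b : ℝ) ^ n * ((b : ℝ) ^ r - 1) * x - ((z2 : ℝ) - z1)) * (b : ℝ) ^ k =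
      (x * (b : ℝ) ^ (n + r) * (b : ℝ) ^ k - (b : ℝ) ^ k * z2) -
        (x * (b : ℝ) ^ n * (b : ℝ) ^ k - (b : ℝ) ^ k * z1) := by
    rw [pow_add]
    ring
  rw [e, abs_lt]
  constructor <;> linarith

lemma val_zero (b k : ℕ) : val b (fun _ => 0) k = 0 := by
  induction k with
  | zero => rfl
  | succ k ih =>
    show val b (fun _ => 0) k * b + 0 = 0
    rw [ih]
    simp

lemma val_max (b k : ℕ) : val b (fun _ => (b : ℤ) - 1) k = (b : ℤ) ^ k - 1 := by
  induction k with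
  | zero =>
    show (0 : ℤ) = _
    simp
  | succ k ih =>
    show val b (fun _ => (b : ℤ) - 1) k * b + ((b : ℤ) - 1) = _
    rw [ih]
    ring

/-- an approximation is a run in the multiple by `b ^ r - 1` -/
lemma nearR_le_runsR (b : ℕ) (hb : 2 ≤ b) (x : ℝ) (r k N : ℕ) (hr : 1 ≤ r) :
    nearR b x r k N ≤ runsR b (((b : ℝ) ^ r - 1) * x) k N := by
  classical
  have hb1 : 1 ≤ b := by omega
  have hbR : (0 : ℝ) < b := by exact_mod_cast (by omega : 0 < b)
  have hbZ : (2 : ℤ) ≤ b := by exact_mod_cast hb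
  rw [runsR, card_shift, nearR]
  refine Finset.card_le_card fun n hn => ?_
  rw [mem_filter] at hn ⊢
  refine ⟨hn.1, ?_⟩
  obtain ⟨p, hp⟩ := hn.2
  rw [near_iff b hb x r k n hr] at hp
  set y : ℝ := ((b : ℝ) ^ r - 1) * x with hy
  have hk : (0 : ℝ) < (b : ℝ) ^ k := by positivity
  have e : (b : ℝ) ^ n * ((b : ℝ) ^ r - 1) * x = y * (b : ℝ) ^ n := by
    rw [hy]
    ring
  rw [e] at hp
  set z : ℝ := y * (b : ℝ) ^ n with hz
  rw [abs_lt] at hp
  have hdig : ∀ j, digit b y (n + 1 + j) = ⌊z * (b : ℝ) ^ (j + 1)⌋ % (b : ℤ) := by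
    intro j
    rw [hz, mul_assoc, ← pow_add, show n + (j + 1) = n + 1 + j by ring]
    rfl
  have hk1 : (1 : ℝ) / (b : ℝ) ^ k ≤ 1 := by
    rw [div_le_one hk]
    exact one_le_pow₀ (by exact_mod_cast hb1)
  rcases le_or_gt (p : ℝ) z with h1 | h1
  · left
    intro j hj
    rw [hdig]
    have hw : IsWord b k (fun _ => 0) := fun j _ => ⟨le_rfl, by
      show (0 : ℤ) < b
      omega⟩
    refine (word_iff b hb1 (fun _ => 0) z k hw).2 ?_ j hj
    have hfl : ⌊z⌋ = p := by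
      rw [Int.floor_eq_iff]
      constructor <;> linarith [hp.2]
    rw [hfl, val_zero, Int.floor_eq_iff]
    push_cast
    have h2 : z - p < 1 / (b : ℝ) ^ k := hp.2
    rw [lt_div_iff₀ hk] at h2
    constructor <;> nlinarith
  · right
    intro j hj
    rw [hdig]
    have hw : IsWord b k (fun _ => (b : ℤ) - 1) := fun j _ => ⟨by
        show (0 : ℤ) ≤ (b : ℤ) - 1
        omega, by
        show (b : ℤ) - 1 < b
        omega⟩
    refine (word_iff b hb1 (fun _ => (b : ℤ) - 1) z k hw).2 ?_ j hj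
    have h3 : (p : ℝ) - z < 1 / (b : ℝ) ^ k := by linarith [hp.1]
    have hfl : ⌊z⌋ = p - 1 := by
      rw [Int.floor_eq_iff]
      push_cast
      constructor <;> linarith
    rw [hfl, val_max, Int.floor_eq_iff]
    push_cast
    rw [lt_div_iff₀ hk] at h3
    constructor <;> nlinarith

lemma upperLe_mono {s s' : ℕ → ℕ} {ρ ρ' : ℝ} (h : ∀ N, s N ≤ s' N) (hρ : ρ' ≤ ρ)
    (h' : UpperLe s' ρ') : UpperLe s ρ := by
  intro δ hδ
  filter_upwards [h' δ hδ] with N hN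
  have h1 : (s N : ℝ) ≤ s' N := by exact_mod_cast h N
  have h2 : (ρ' + δ) * N ≤ (ρ + δ) * N :=
    mul_le_mul_of_nonneg_right (by linarith) (Nat.cast_nonneg N)
  linarith

/-- runs in a normal number -/
lemma runs_of_normal (b : ℕ) (hb : 2 ≤ b) (y : ℝ) (h : Normal b y) (k : ℕ) :
    UpperLe (runsR b y k) (2 / (b : ℝ) ^ k) := by
  have hbZ : (2 : ℤ) ≤ b := by exact_mod_cast hb
  rcases Nat.eq_zero_or_pos k with hk | hk
  · subst hk
    intro δ hδ
    filter_upwards with N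
    have h1 : runsR b y 0 N ≤ N := by
      refine (Finset.card_filter_le _ _).trans ?_
      simp
    have h2 : (runsR b y 0 N : ℝ) ≤ N := by exact_mod_cast h1
    have h3 : (0 : ℝ) ≤ N := Nat.cast_nonneg N
    rw [pow_zero]
    nlinarith
  · have hw0 : IsWord b k (fun _ => 0) := fun j _ => ⟨le_rfl, by
      show (0 : ℤ) < b
      omega⟩
    have hw1 : IsWord b k (fun _ => (b : ℤ) - 1) := fun j _ => ⟨by
        show (0 : ℤ) ≤ (b : ℤ) - 1
        omega, by
        show (b : ℤ) - 1 < b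
        omega⟩
    have h0 := h k hk _ hw0
    have h1 := h k hk _ hw1
    intro δ hδ
    have h2 := (h0.add h1).eventually (gt_mem_nhds (show 1 / (b : ℝ) ^ k + 1 / (b : ℝ) ^ k <
      2 / (b : ℝ) ^ k + δ by
        have : 1 / (b : ℝ) ^ k + 1 / (b : ℝ) ^ k = 2 / (b : ℝ) ^ k := by ring
        linarith))
    filter_upwards [h2, eventually_ge_atTop 1] with N hN hN1
    have hN0 : (0 : ℝ) < N := by exact_mod_cast hN1
    have h3 : runsR b y k N ≤ count b y k (fun _ => 0) N + count b y k (fun _ => (b : ℤ) - 1) N := by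
      rw [runsR, Finset.filter_or]
      exact Finset.card_union_le _ _
    have h4 : (runsR b y k N : ℝ) ≤
        count b y k (fun _ => 0) N + count b y k (fun _ => (b : ℤ) - 1) N := by exact_mod_cast h3
    rw [← add_div, div_lt_iff₀ hN0] at hN
    linarith

/-- the repetitions, approximations or runs are rare at the distances in `T - T` -/
def Rare (b : ℕ) (T : Set ℕ) (s : ℕ → ℕ → ℕ → ℕ) : Prop :=
  ∀ η : ℝ, 0 < η → ∀ K : ℕ, ∃ k : ℕ, K ≤ k ∧ ∀ t ∈ T, ∀ t' ∈ T, t < t' →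
    UpperLe (s (t' - t) k) (1 / (b : ℝ) ^ ((1 - η) * (k : ℝ)))

lemma normal_multiple (b : ℕ) (hb : 2 ≤ b) (x : ℝ) (h : Normal b x) (q : ℕ) (hq : 1 ≤ q) :
    Normal b (q * x) := by
  have hb2 : 3 ≤ b ^ 2 := by nlinarith
  rw [iff_multiples b 2 hb hb2]
  intro m hm
  have h1 := (iff_multiples b 2 hb hb2 x).1 h (m * q) (Nat.mul_pos hm hq)
  push_cast at h1
  rw [mul_assoc] at h1
  exact h1

lemma rare_of_normal (b : ℕ) (hb : 2 ≤ b) (x : ℝ) (h : Normal b x) (T : Set ℕ) :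
    Rare b T (fun r => runsR b (((b : ℝ) ^ r - 1) * x)) := by
  intro η hη K
  have hbR : (1 : ℝ) < b := by exact_mod_cast (by omega : 1 < b)
  obtain ⟨k0, hk0⟩ := exists_nat_gt (1 / η)
  refine ⟨max K k0, le_max_left _ _, fun t _ t' _ htt => ?_⟩
  set k := max K k0 with hk
  have h1 : Normal b (((b : ℝ) ^ (t' - t) - 1) * x) := by
    have h2 : 1 ≤ b ^ (t' - t) - 1 := by
      have : b ^ 1 ≤ b ^ (t' - t) := Nat.pow_le_pow_right (by omega) (by omega)
      rw [pow_one] at this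
      omega
    have h3 := normal_multiple b hb x h (b ^ (t' - t) - 1) h2
    have h4 : ((b ^ (t' - t) - 1 : ℕ) : ℝ) = (b : ℝ) ^ (t' - t) - 1 := by
      have : 1 ≤ b ^ (t' - t) := Nat.one_le_pow _ _ (by omega)
      push_cast [Nat.cast_sub this]
      rfl
    rwa [h4] at h3
  refine upperLe_mono (fun N => le_rfl) ?_ (runs_of_normal b hb _ h1 k)
  have hkη : 1 ≤ η * k := by
    have h2 : (k0 : ℝ) ≤ k := by exact_mod_cast le_max_right _ _
    rw [div_lt_iff₀ hη] at hk0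
    nlinarith
  have hb0 : (0 : ℝ) < b := by linarith
  have h3 : (b : ℝ) ^ k = (b : ℝ) ^ ((1 - η) * (k : ℝ)) * (b : ℝ) ^ (η * (k : ℝ)) := by
    rw [← Real.rpow_natCast, ← Real.rpow_add hb0]
    congr 1
    ring
  have h4 : (2 : ℝ) ≤ (b : ℝ) ^ (η * (k : ℝ)) := by
    have h5 : (b : ℝ) ^ (1 : ℝ) ≤ (b : ℝ) ^ (η * (k : ℝ)) :=
      Real.rpow_le_rpow_of_exponent_le hbR.le hkη
    rw [Real.rpow_one] at h5
    have h6 : (2 : ℝ) ≤ b := by exact_mod_cast hb
    linarith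
  have h5 : 0 < (b : ℝ) ^ ((1 - η) * (k : ℝ)) := Real.rpow_pos_of_pos hb0 _
  rw [h3, div_le_div_iff₀ (by positivity) h5]
  nlinarith

lemma normal_of_rare (b : ℕ) (hb : 2 ≤ b) (x : ℝ) (T : Set ℕ) (hT : T.Infinite)
    (h : Rare b T (repR b x)) : Normal b x := by
  have hb1 : 1 ≤ b := by omega
  rw [normal_iff b hb1]
  by_contra hcon
  obtain ⟨η, hη, K, HK⟩ := dichotomy hb _ hcon
  obtain ⟨k, hk, hall⟩ := h (η / 2) (by linarith) (max K 1)
  obtain ⟨T1, hT1, hT1c⟩ := hT.exists_subset_card_eq (b ^ k)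
  obtain ⟨t, ht, t', ht', htt, hfr⟩ := HK k (le_trans (le_max_left _ _) hk) T1 hT1c.ge
  have hbR : (1 : ℝ) < b := by exact_mod_cast (by omega : 1 < b)
  have hk1 : (1 : ℝ) ≤ k := by exact_mod_cast (le_trans (le_max_right _ _) hk)
  have h1 : 1 / (b : ℝ) ^ ((1 - η / 2) * (k : ℝ)) < 1 / (b : ℝ) ^ ((1 - η) * (k : ℝ)) := by
    have hb0 : (0 : ℝ) < b := by linarith
    refine one_div_lt_one_div_of_lt (Real.rpow_pos_of_pos hb0 _) ?_
    refine Real.rpow_lt_rpow_of_exponent_lt hbR ?_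
    nlinarith
  have h2 := hall t (hT1 ht) t' (hT1 ht') htt _ (sub_pos.mpr h1)
  obtain ⟨N, hN1, hN2⟩ := (hfr.and_eventually h2).exists
  rw [repR_eq b hb1] at hN2
  have h3 : (1 / (b : ℝ) ^ ((1 - η / 2) * (k : ℝ)) + (1 / (b : ℝ) ^ ((1 - η) * (k : ℝ)) -
      1 / (b : ℝ) ^ ((1 - η / 2) * (k : ℝ)))) * N = N / (b : ℝ) ^ ((1 - η) * (k : ℝ)) := by
    ring
  rw [h3] at hN2
  linarith

/-- the criterion -/
theorem tfae (b : ℕ) (hb : 2 ≤ b) (x : ℝ) (T : Set ℕ) (hT : T.Infinite) :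
    [Normal b x, Rare b T (repR b x), Rare b T (nearR b x),
      Rare b T (fun r => runsR b (((b : ℝ) ^ r - 1) * x))].TFAE := by
  tfae_have 1 → 4 := fun h => rare_of_normal b hb x h T
  tfae_have 4 → 3 := fun h η hη K => by
    obtain ⟨k, hk, h1⟩ := h η hη K
    exact ⟨k, hk, fun t ht t' ht' htt => upperLe_mono
      (fun N => nearR_le_runsR b hb x (t' - t) k N (by omega)) le_rfl (h1 t ht t' ht' htt)⟩
  tfae_have 3 → 2 := fun h η hη K => by
    obtain ⟨k, hk, h1⟩ := h η hη K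
    exact ⟨k, hk, fun t ht t' ht' htt => upperLe_mono
      (fun N => repR_le_nearR b hb x (t' - t) k N (by omega)) le_rfl (h1 t ht t' ht' htt)⟩
  tfae_have 2 → 1 := fun h => normal_of_rare b hb x T hT h
  tfae_finish

theorem dichotomyR (b : ℕ) (hb : 2 ≤ b) (x : ℝ) (h : ¬ Normal b x) :
    ∃ η : ℝ, 0 < η ∧ ∃ K : ℕ, ∀ k : ℕ, K ≤ k → ∀ T : Finset ℕ, b ^ k ≤ T.card →
      ∃ t ∈ T, ∃ t' ∈ T, t < t' ∧ ∃ᶠ N : ℕ in atTop,
        (N : ℝ) / (b : ℝ) ^ ((1 - η) * (k : ℝ)) < repR b x (t' - t) k N := by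
  have hb1 : 1 ≤ b := by omega
  rw [normal_iff b hb1] at h
  simp only [repR_eq b hb1]
  exact dichotomy hb _ h

theorem repR_of_normal (b : ℕ) (hb : 2 ≤ b) (x : ℝ) (h : Normal b x) (r : ℕ) (hr : 1 ≤ r) (k : ℕ) :
    Tendsto (fun N : ℕ => (repR b x r k N : ℝ) / N) atTop (𝓝 (1 / (b : ℝ) ^ k)) := by
  have hb1 : 1 ≤ b := by omega
  rw [normal_iff b hb1] at h
  simp only [repR_eq b hb1]
  exact rep_of_norm hb1 _ h r hr k

theorem stageR (b : ℕ) (hb : 2 ≤ b) (l : ℕ) (hl : 1 ≤ l) (ε : ℝ) (hε : 0 < ε) (hε1 : ε ≤ 1) (k : ℕ)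
    (hk : 73 * l / ε ^ 2 ≤ k) (T : Finset ℕ) (hT : b ^ k ≤ T.card) :
      ∃ N0 : ℕ, ∀ (x : ℝ) (N : ℕ), N0 ≤ N →
        ((∑ t ∈ T, ∑ t' ∈ T.filter (fun t' => t < t'), repR b x (t' - t) k N : ℕ) : ℝ) ≤
          (T.card : ℝ) ^ 2 / 2 *
          (Real.exp (ε ^ 2 * (k : ℝ) / (64 * l)) / (b : ℝ) ^ k * N) →
        ∀ w : ℕ → ℤ, IsWord b l w → |(count b x l w N : ℝ) - N / (b : ℝ) ^ l| ≤ ε * N := by
  have hb1 : 1 ≤ b := by omega
  obtain ⟨N0, HN⟩ := stage hb l hl ε hε hε1 k hk T hT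
  refine ⟨N0, fun x N hN h w hw => ?_⟩
  rw [count_occ b hb1 x l w hw]
  refine HN (dig b hb1 x) N hN ?_ (toFin b l w hw)
  rw [pairSum]
  simp only [← repR_eq b hb1]
  exact h

/-- the number of distances `1 ≤ r < J` at which the repetitions of length `k` have an upper density
greater than `ρ` -/
noncomputable def excR (b : ℕ) (x : ℝ) (k : ℕ) (ρ : ℝ) (J : ℕ) : ℕ := by
  classical
  exact ((Ico 1 J).filter fun r => ¬ UpperLe (repR b x r k) ρ).card

theorem almostR (b : ℕ) (hb : 2 ≤ b) (x : ℝ) :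
    Normal b x ↔ ∀ η : ℝ, 0 < η → ∀ K : ℕ, ∃ k : ℕ, K ≤ k ∧ ∀ δ : ℝ, 0 < δ → ∃ᶠ J : ℕ in atTop,
      (excR b x k (1 / (b : ℝ) ^ ((1 - η) * (k : ℝ))) J : ℝ) ≤ δ * J := by
  classical
  have hb1 : 1 ≤ b := by omega
  constructor
  · intro h η hη K
    have h0 : Rare b Set.univ (repR b x) :=
      ((tfae b hb x Set.univ Set.infinite_univ).out 0 1).1 h
    obtain ⟨k, hk, H⟩ := h0 η hη K
    refine ⟨k, hk, fun δ hδ => Filter.Eventually.frequently (Filter.Eventually.of_forall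
      fun J => ?_)⟩
    have h1 : excR b x k (1 / (b : ℝ) ^ ((1 - η) * (k : ℝ))) J = 0 := by
      rw [excR, Finset.card_eq_zero, Finset.filter_eq_empty_iff]
      intro r hr
      rw [mem_Ico] at hr
      push Not
      have h2 := H 0 (Set.mem_univ _) r (Set.mem_univ _) (by omega)
      rwa [Nat.sub_zero] at h2
    rw [h1, Nat.cast_zero]
    positivity
  · intro h
    rw [normal_iff b hb1]
    refine norm_of_almost hb _ fun η hη K => ?_
    obtain ⟨k, hk, H⟩ := h η hη K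
    refine ⟨k, hk, fun δ hδ => (H δ hδ).mono fun J hJ => ?_⟩
    refine ⟨(Ico 1 J).filter fun r =>
      ¬ UpperLe (repR b x r k) (1 / (b : ℝ) ^ ((1 - η) * (k : ℝ))), hJ, fun r hr1 hrJ hrE => ?_⟩
    rw [mem_filter, mem_Ico] at hrE
    push Not at hrE
    have h2 := hrE ⟨hr1, hrJ⟩
    intro δ' hδ'
    filter_upwards [h2 δ' hδ'] with N hN
    rwa [repR_eq b hb1] at hN

/-- the number of `1 ≤ i ≤ N` at which a word of the set `B` stands -/
noncomputable def hitsR (b : ℕ) (x : ℝ) {k : ℕ} (B : Finset (Fin k → ℤ)) (N : ℕ) : ℕ :=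
  ((Icc 1 N).filter fun i => (fun j : Fin k => digit b x (i + j)) ∈ B).card

theorem hitsR_le (b : ℕ) (hb : 2 ≤ b) (x : ℝ) (T : Set ℕ) (hT : T.Infinite) (k : ℕ) (ρ : ℝ)
    (h : ∀ t ∈ T, ∀ t' ∈ T, t < t' → UpperLe (repR b x (t' - t) k) ρ) (B : Finset (Fin k → ℤ)) :
    UpperLe (hitsR b x B) (Real.sqrt (B.card * ρ)) := by
  classical
  have hb1 : 1 ≤ b := by omega
  set emb : (Fin k → Fin b) → (Fin k → ℤ) := fun v j => ((v j : ℕ) : ℤ) with hemb
  set B' : Finset (Fin k → Fin b) := univ.filter fun v => emb v ∈ B with hB'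
  have hinj : Function.Injective emb := by
    intro v v' hv
    funext j
    have := congrFun hv j
    simp only [hemb] at this
    exact Fin.ext (by exact_mod_cast this)
  have hcard : B'.card ≤ B.card := by
    rw [← Finset.card_image_of_injective B' hinj]
    refine Finset.card_le_card fun a ha => ?_
    rw [mem_image] at ha
    obtain ⟨v, hv, rfl⟩ := ha
    rw [hB', mem_filter] at hv
    exact hv.2
  have hρ : 0 ≤ ρ := by
    obtain ⟨t, ht⟩ := hT.nonempty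
    obtain ⟨t', ht', htt⟩ := hT.exists_gt t
    by_contra hneg
    push Not at hneg
    have h1 := h t ht t' ht' htt (-ρ / 2) (by linarith)
    obtain ⟨N, hN, hN1⟩ := (h1.and (eventually_ge_atTop 1)).exists
    have h2 : (0 : ℝ) ≤ repR b x (t' - t) k N := Nat.cast_nonneg _
    have h3 : (0 : ℝ) < N := by exact_mod_cast hN1
    nlinarith
  have h1 := hits_le (dig b hb1 x) T hT k ρ (fun t ht t' ht' htt => by
    have h2 := h t ht t' ht' htt
    intro δ hδ
    filter_upwards [h2 δ hδ] with N hN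
    rwa [repR_eq b hb1] at hN) B'
  refine upperLe_mono (fun N => ?_) ?_ h1
  · rw [hitsR, card_shift, hits]
    refine Finset.card_le_card fun n hn => ?_
    rw [mem_filter] at hn ⊢
    refine ⟨hn.1, ?_⟩
    rw [hB', mem_filter]
    refine ⟨mem_univ _, ?_⟩
    have e : emb (fun j : Fin k => dig b hb1 x (n + j)) = fun j : Fin k => digit b x (n + 1 + j) := by
      funext j
      simp only [hemb]
      rw [dig_val, show n + (j : ℕ) + 1 = n + 1 + j by ring]
    rw [e]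
    exact hn.2
  · refine Real.sqrt_le_sqrt (mul_le_mul_of_nonneg_right ?_ hρ)
    exact_mod_cast hcard

end Pool.Agent.N736.RR
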