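import Pool.Agent.N736.RR.Stage

/-! # Rare repetitions: the criterion for sequences -/

set_option autoImplicit false

open Finset Filter Topology

namespace Pool.Agent.N736.RR

variable {b : ℕ}

/-- the criterion at one stage -/
theorem stage (hb : 2 ≤ b) (l : ℕ) (hl : 1 ≤ l) (ε : ℝ) (hε : 0 < ε) (hε1 : ε ≤ 1) (k : ℕ)
    (hk : 73 * l / ε ^ 2 ≤ k) (T : Finset ℕ) (hT : b ^ k ≤ T.card) :
      ∃ N0 : ℕ, ∀ (d : ℕ → Fin b) (N : ℕ), N0 ≤ N →
        (pairSum (fun r => rep d r k N) T : ℝ) ≤ (T.card : ℝ) ^ 2 / 2 *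
          (Real.exp (ε ^ 2 * (k : ℝ) / (64 * l)) / (b : ℝ) ^ k * N) →
        ∀ v : Fin l → Fin b, |(occ d v N : ℝ) - N / (b : ℝ) ^ l| ≤ ε * N := by
  have hlR : (0 : ℝ) < l := by exact_mod_cast hl
  have hε2 : 0 < ε ^ 2 := by positivity
  set m : ℕ := k / l with hm
  set s : ℕ := k % l with hs
  have hkms : m * l + s = k := by
    rw [mul_comm]
    exact Nat.div_add_mod k l
  have hsl : s < l := Nat.mod_lt _ hl
  have hmR : 71 / ε ^ 2 ≤ m := by
    have h1 : (k : ℝ) ≤ (m + 1) * l := by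
      have : k ≤ (m + 1) * l := by
        rw [add_mul, one_mul]
        omega
      exact_mod_cast this
    have h2 : 73 * l / ε ^ 2 = 73 / ε ^ 2 * l := by ring
    rw [h2] at hk
    have h3 : 73 / ε ^ 2 ≤ m + 1 := le_of_mul_le_mul_right (hk.trans h1) hlR
    have h4 : 1 ≤ 2 / ε ^ 2 := by
      rw [le_div_iff₀ hε2]
      nlinarith
    have h5 : 73 / ε ^ 2 = 71 / ε ^ 2 + 2 / ε ^ 2 := by ring
    linarith
  have hm1 : 1 ≤ m := by
    have h1 : (0 : ℝ) < m := lt_of_lt_of_le (by positivity) hmR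
    exact_mod_cast h1
  have hs2 : s ≤ m * l := by
    have : 1 * l ≤ m * l := Nat.mul_le_mul_right l hm1
    omega
  set M : ℕ := T.sup id with hM
  set N0 : ℕ := ⌈2 * ((m * l : ℕ) : ℝ) / ε⌉₊ + 1 + M * b ^ k + ⌈(M : ℝ) * Real.exp m⌉₊ with hN0
  refine ⟨N0, fun d N hN hR v => ?_⟩
  have h1 : ((m * l : ℕ) : ℝ) ≤ ε / 2 * N := by
    have h2 : 2 * ((m * l : ℕ) : ℝ) / ε ≤ N := by
      have : (⌈2 * ((m * l : ℕ) : ℝ) / ε⌉₊ : ℝ) ≤ N := by
        exact_mod_cast (by omega : ⌈2 * ((m * l : ℕ) : ℝ) / ε⌉₊ ≤ N)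
      exact (Nat.le_ceil _).trans this
    rw [div_le_iff₀ hε] at h2
    linarith
  have h2 : 1 ≤ N := by omega
  have h3 : (M : ℝ) * (b : ℝ) ^ (m * l + s) ≤ N := by
    rw [hkms]
    exact_mod_cast (by omega : M * b ^ k ≤ N)
  have h4 : (M : ℝ) * Real.exp m ≤ N := by
    have : (⌈(M : ℝ) * Real.exp m⌉₊ : ℝ) ≤ N := by
      exact_mod_cast (by omega : ⌈(M : ℝ) * Real.exp m⌉₊ ≤ N)
    exact (Nat.le_ceil _).trans this
  have h6 : ∀ sg : ℝ, |sg| = 1 → sg * (occ d v N - N / (b : ℝ) ^ l) < ε * N := by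
    intro sg hsg
    exact one_word hb hl v ε hε hε1 m s hs2 hmR T (by rwa [hkms]) M N
      (fun t ht => Finset.le_sup (f := id) ht) h1 h2 h3 h4 d (by rw [hkms]; exact hR) sg hsg
  have h7 := h6 1 (by norm_num)
  have h8 := h6 (-1) (by norm_num)
  rw [abs_le]
  constructor <;> linarith

lemma exp_eta (hb : 2 ≤ b) (l : ℕ) (hl : 1 ≤ l) (ε : ℝ) (k : ℕ) :
    Real.exp (ε ^ 2 * (k : ℝ) / (64 * l)) / (b : ℝ) ^ k =
      1 / (b : ℝ) ^ ((1 - ε ^ 2 / (64 * l * Real.log b)) * (k : ℝ)) := by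
  have hbR : (1 : ℝ) < b := by exact_mod_cast (by omega : 1 < b)
  have hb0 : (0 : ℝ) < b := by linarith
  have hlog : 0 < Real.log b := Real.log_pos hbR
  have hlR : (0 : ℝ) < l := by exact_mod_cast hl
  rw [← Real.rpow_natCast (b : ℝ) k, Real.rpow_def_of_pos hb0, Real.rpow_def_of_pos hb0,
    ← Real.exp_sub, one_div, ← Real.exp_neg]
  congr 1
  field_simp
  ring

/-- the criterion at one stage, for all pairs -/
theorem stage' (hb : 2 ≤ b) (l : ℕ) (hl : 1 ≤ l) (ε : ℝ) (hε : 0 < ε) (hε1 : ε ≤ 1) :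
    ∃ η : ℝ, 0 < η ∧ ∃ K : ℕ, ∀ k : ℕ, K ≤ k → ∀ T : Finset ℕ, b ^ k ≤ T.card →
      ∃ N0 : ℕ, ∀ (d : ℕ → Fin b) (N : ℕ), N0 ≤ N →
        (∀ t ∈ T, ∀ t' ∈ T, t < t' →
          (rep d (t' - t) k N : ℝ) ≤ N / (b : ℝ) ^ ((1 - η) * (k : ℝ))) →
        ∀ v : Fin l → Fin b, |(occ d v N : ℝ) - N / (b : ℝ) ^ l| ≤ ε * N := by
  have hbR : (1 : ℝ) < b := by exact_mod_cast (by omega : 1 < b)
  have hlog : 0 < Real.log b := Real.log_pos hbR
  have hlR : (0 : ℝ) < l := by exact_mod_cast hl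
  refine ⟨ε ^ 2 / (64 * l * Real.log b), by positivity, ⌈73 * l / ε ^ 2⌉₊, fun k hk T hT => ?_⟩
  obtain ⟨N0, HN⟩ := stage hb l hl ε hε hε1 k ((Nat.le_ceil _).trans (by exact_mod_cast hk)) T hT
  refine ⟨N0, fun d N hN hR => HN d N hN ?_⟩
  refine pairSum_le _ T _ (by positivity) fun t ht t' ht' htt => ?_
  rw [exp_eta hb l hl ε k, one_div_mul_eq_div]
  exact hR t ht t' ht' htt

/-- all words are equally frequent -/
def Norm (d : ℕ → Fin b) : Prop := ∀ (l : ℕ) (v : Fin l → Fin b),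
  Tendsto (fun N : ℕ => (occ d v N : ℝ) / N) atTop (𝓝 (1 / (b : ℝ) ^ l))

lemma tendsto_of_close (s : ℕ → ℝ) (p : ℝ)
    (h : ∀ ε : ℝ, 0 < ε → ε ≤ 1 → ∀ᶠ N : ℕ in atTop, |s N - N * p| ≤ ε * N) :
    Tendsto (fun N : ℕ => s N / N) atTop (𝓝 p) := by
  rw [Metric.tendsto_atTop]
  intro ε hε
  have h1 := h (min (ε / 2) 1) (lt_min (by linarith) one_pos) (min_le_right _ _)
  rw [eventually_atTop] at h1
  obtain ⟨N0, hN0⟩ := h1
  refine ⟨N0 + 1, fun N hN => ?_⟩
  have h2 := hN0 N (by omega)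
  have hN1 : (0 : ℝ) < N := by exact_mod_cast (by omega : 0 < N)
  rw [Real.dist_eq]
  have h3 : s N / N - p = (s N - N * p) / N := by field_simp
  rw [h3, abs_div, abs_of_pos hN1, div_lt_iff₀ hN1]
  have h4 : min (ε / 2) 1 * N ≤ ε / 2 * N := mul_le_mul_of_nonneg_right (min_le_left _ _) hN1.le
  nlinarith

/-- a sequence which is not normal has many repetitions at a distance in `T - T` -/
theorem dichotomy (hb : 2 ≤ b) (d : ℕ → Fin b) (h : ¬ Norm d) :
    ∃ η : ℝ, 0 < η ∧ ∃ K : ℕ, ∀ k : ℕ, K ≤ k → ∀ T : Finset ℕ, b ^ k ≤ T.card →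
      ∃ t ∈ T, ∃ t' ∈ T, t < t' ∧ ∃ᶠ N : ℕ in atTop,
        (N : ℝ) / (b : ℝ) ^ ((1 - η) * (k : ℝ)) < rep d (t' - t) k N := by
  by_contra hcon
  push Not at hcon
  apply h
  intro l v
  rcases Nat.eq_zero_or_pos l with hl | hl
  · subst hl
    have h1 : ∀ N : ℕ, occ d v N = N := by
      intro N
      rw [occ, Finset.filter_true_of_mem, card_range]
      intro n _
      exact Subsingleton.elim _ _
    have h2 : (fun N : ℕ => (occ d v N : ℝ) / N) =ᶠ[atTop] fun _ => 1 / (b : ℝ) ^ 0 := by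
      filter_upwards [eventually_ge_atTop 1] with N hN
      have hN1 : (0 : ℝ) < N := by exact_mod_cast hN
      rw [h1, pow_zero]
      field_simp
    exact (tendsto_congr' h2).mpr tendsto_const_nhds
  · refine tendsto_of_close _ _ fun ε hε hε1 => ?_
    obtain ⟨η, hη, K, HK⟩ := stage' hb l hl ε hε hε1
    obtain ⟨k, hk, T, hT, hall⟩ := hcon η hη K
    obtain ⟨N0, HN⟩ := HK k hk T hT
    have h1 : ∀ᶠ N : ℕ in atTop, ∀ p ∈ T ×ˢ T, p.1 < p.2 →
        (rep d (p.2 - p.1) k N : ℝ) ≤ N / (b : ℝ) ^ ((1 - η) * (k : ℝ)) := by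
      rw [Filter.eventually_all_finset]
      rintro ⟨t, t'⟩ hp
      rw [mem_product] at hp
      by_cases htt : t < t'
      · have h2 := hall t hp.1 t' hp.2 htt
        filter_upwards [h2] with N hN _
        exact hN
      · exact Filter.Eventually.of_forall fun N h3 => absurd h3 htt
    filter_upwards [h1, eventually_ge_atTop N0] with N hN1 hN2
    have h2 := HN d N hN2 (fun t ht t' ht' htt => hN1 (t, t') (mem_product.mpr ⟨ht, ht'⟩) htt) v
    rw [show (N : ℝ) * (1 / (b : ℝ) ^ l) = N / (b : ℝ) ^ l by ring]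
    exact h2

/-- in a normal sequence the repetitions of length `k` have the density `b ^ (-k)` at every distance -/
theorem rep_of_norm (hb : 1 ≤ b) (d : ℕ → Fin b) (h : Norm d) (r : ℕ) (hr : 1 ≤ r) (k : ℕ) :
    Tendsto (fun N : ℕ => (rep d r k N : ℝ) / N) atTop (𝓝 (1 / (b : ℝ) ^ k)) := by
  set ext : (Fin r → Fin b) → (Fin (k + r) → Fin b) :=
    fun u j => u ⟨(j : ℕ) % r, Nat.mod_lt _ hr⟩ with hext
  have h1 : ∀ N, (rep d r k N : ℝ) = ∑ u : Fin r → Fin b, (occ d (ext u) N : ℝ) := by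
    intro N
    have h2 : ∀ u : Fin r → Fin b, occ d (ext u) N = (((range N).filter fun n =>
        ∀ j < k, d (n + j) = d (n + r + j)).filter fun n => (fun j : Fin r => d (n + j)) = u).card := by
      intro u
      rw [occ, Finset.filter_filter]
      congr 1
      refine Finset.filter_congr fun n _ => ?_
      constructor
      · intro hu
        have hu' : ∀ j, (hj : j < k + r) → d (n + j) = u ⟨j % r, Nat.mod_lt _ hr⟩ := fun j hj =>
          congrFun hu ⟨j, hj⟩
        refine ⟨fun j hj => ?_, ?_⟩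
        · rw [hu' j (by omega), show n + r + j = n + (j + r) by ring, hu' (j + r) (by omega)]
          congr 2
          simp
        · funext j
          rw [hu' j (by omega)]
          congr 1
          exact Fin.ext (Nat.mod_eq_of_lt j.2)
      · rintro ⟨h3, h4⟩
        have h5 : ∀ j, j < k + r → d (n + j) = u ⟨j % r, Nat.mod_lt _ hr⟩ := by
          intro j
          induction j using Nat.strong_induction_on with
          | _ j ih =>
            intro hj
            rcases lt_or_ge j r with hjr | hjr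
            · have h6 := congrFun h4 ⟨j, hjr⟩
              simp only at h6
              rw [h6]
              congr 1
              exact Fin.ext (Nat.mod_eq_of_lt hjr).symm
            · have h6 := h3 (j - r) (by omega)
              rw [show n + r + (j - r) = n + j by omega] at h6
              rw [← h6, ih (j - r) (by omega) (by omega)]
              congr 1
              exact Fin.ext (Nat.mod_eq_sub_mod hjr).symm
        funext j
        exact h5 j j.2
    simp only [h2]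
    rw [rep, Finset.card_eq_sum_card_fiberwise (f := fun n => (fun j : Fin r => d (n + j)))
      (t := univ) (fun _ _ => by simp)]
    push_cast
    rfl
  have h2 : (fun N : ℕ => (rep d r k N : ℝ) / N) =
      fun N : ℕ => ∑ u : Fin r → Fin b, (occ d (ext u) N : ℝ) / N := by
    funext N
    rw [h1, Finset.sum_div]
  rw [h2]
  have h3 : (1 : ℝ) / (b : ℝ) ^ k = ∑ _u : Fin r → Fin b, 1 / (b : ℝ) ^ (k + r) := by
    rw [Finset.sum_const, Finset.card_univ, Fintype.card_fun, Fintype.card_fin, Fintype.card_fin,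
      nsmul_eq_mul, pow_add]
    have hb0 : (0 : ℝ) < b := by exact_mod_cast hb
    push_cast
    field_simp
  rw [h3]
  exact tendsto_finset_sum _ fun u _ => h (k + r) (ext u)

/-- `s N ≤ (ρ + δ) N` for large `N`, for all `δ > 0` -/
def UpperLe (s : ℕ → ℕ) (ρ : ℝ) : Prop :=
  ∀ δ : ℝ, 0 < δ → ∀ᶠ N : ℕ in atTop, (s N : ℝ) ≤ (ρ + δ) * N

/-- repetitions which are rare at almost all distances -/
theorem norm_of_almost (hb : 2 ≤ b) (d : ℕ → Fin b)
    (h : ∀ η : ℝ, 0 < η → ∀ K : ℕ, ∃ k : ℕ, K ≤ k ∧ ∀ δ : ℝ, 0 < δ → ∃ᶠ J : ℕ in atTop,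
      ∃ E : Finset ℕ, (E.card : ℝ) ≤ δ * J ∧ ∀ r : ℕ, 1 ≤ r → r < J → r ∉ E →
        UpperLe (rep d r k) (1 / (b : ℝ) ^ ((1 - η) * (k : ℝ)))) : Norm d := by
  intro l v
  rcases Nat.eq_zero_or_pos l with hl | hl
  · subst hl
    have h1 : ∀ N : ℕ, occ d v N = N := by
      intro N
      rw [occ, Finset.filter_true_of_mem, card_range]
      intro n _
      exact Subsingleton.elim _ _
    have h2 : (fun N : ℕ => (occ d v N : ℝ) / N) =ᶠ[atTop] fun _ => 1 / (b : ℝ) ^ 0 := by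
      filter_upwards [eventually_ge_atTop 1] with N hN
      have hN1 : (0 : ℝ) < N := by exact_mod_cast hN
      rw [h1, pow_zero]
      field_simp
    exact (tendsto_congr' h2).mpr tendsto_const_nhds
  · refine tendsto_of_close _ _ fun ε hε hε1 => ?_
    have hbR : (1 : ℝ) < b := by exact_mod_cast (by omega : 1 < b)
    have hb0 : (0 : ℝ) < b := by linarith
    have hlog : 0 < Real.log b := Real.log_pos hbR
    have hlR : (0 : ℝ) < l := by exact_mod_cast hl
    set η : ℝ := ε ^ 2 / (64 * l * Real.log b) with hη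
    have hη0 : 0 < η := by positivity
    obtain ⟨k, hk, H⟩ := h (η / 2) (by linarith) (⌈73 * l / ε ^ 2⌉₊ + 1)
    have hk1 : (1 : ℝ) ≤ k := by exact_mod_cast (by omega : 1 ≤ k)
    have hkR : 73 * l / ε ^ 2 ≤ k :=
      (Nat.le_ceil _).trans (by exact_mod_cast (by omega : ⌈73 * l / ε ^ 2⌉₊ ≤ k))
    set A : ℝ := 1 / (b : ℝ) ^ ((1 - η / 2) * (k : ℝ)) with hA
    set B : ℝ := 1 / (b : ℝ) ^ ((1 - η) * (k : ℝ)) with hB
    have hAB : A < B := by
      refine one_div_lt_one_div_of_lt (Real.rpow_pos_of_pos hb0 _) ?_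
      refine Real.rpow_lt_rpow_of_exponent_lt hbR ?_
      nlinarith
    have hA0 : 0 < A := by positivity
    set δ : ℝ := (B - A) / 4 with hδ
    have hδ0 : 0 < δ := by
      rw [hδ]
      linarith
    obtain ⟨J, ⟨E, hE, hJE⟩, hJk⟩ := ((H δ hδ0).and_eventually (eventually_ge_atTop (b ^ k))).exists
    obtain ⟨N0, HN⟩ := stage hb l hl ε hε hε1 k hkR (range J) (by rwa [card_range])
    have h1 : ∀ᶠ N : ℕ in atTop, ∀ r ∈ (Ico 1 J) \ E, (rep d r k N : ℝ) ≤ (A + δ) * N := by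
      rw [Filter.eventually_all_finset]
      intro r hr
      rw [Finset.mem_sdiff, mem_Ico] at hr
      exact hJE r hr.1.1 hr.1.2 hr.2 δ hδ0
    filter_upwards [h1, eventually_ge_atTop N0] with N hN1 hN2
    rw [show (N : ℝ) * (1 / (b : ℝ) ^ l) = N / (b : ℝ) ^ l by ring]
    refine HN d N hN2 ?_ v
    rw [exp_eta hb l hl ε k, ← hη, ← hB, card_range]
    have hN0 : (0 : ℝ) ≤ N := Nat.cast_nonneg N
    have h2 : ∀ r, 1 ≤ r → r < J → (rep d r k N : ℝ) ≤ (A + δ) * N + if r ∈ E then (N : ℝ) else 0 := by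
      intro r hr1 hrJ
      by_cases hrE : r ∈ E
      · rw [if_pos hrE]
        have h3 : rep d r k N ≤ N := by
          refine (Finset.card_filter_le _ _).trans ?_
          simp
        have h4 : (rep d r k N : ℝ) ≤ N := by exact_mod_cast h3
        have h5 : 0 ≤ (A + δ) * N := by positivity
        linarith
      · rw [if_neg hrE, add_zero]
        exact hN1 r (by
          rw [Finset.mem_sdiff, mem_Ico]
          exact ⟨⟨hr1, hrJ⟩, hrE⟩)
    have h3 : (pairSum (fun r => rep d r k N) (range J) : ℝ) ≤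
        ∑ t ∈ range J, ∑ t' ∈ (range J).filter (fun t' => t < t'), (A + δ) * N +
        ∑ t ∈ range J, ∑ t' ∈ (range J).filter (fun t' => t < t'),
          (if t' - t ∈ E then (N : ℝ) else 0) := by
      rw [pairSum]
      push_cast
      rw [← Finset.sum_add_distrib]
      refine Finset.sum_le_sum fun t _ => ?_
      rw [← Finset.sum_add_distrib]
      refine Finset.sum_le_sum fun t' ht' => ?_
      rw [mem_filter, mem_range] at ht'
      exact h2 (t' - t) (by omega) (by omega)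
    have h4 : ∑ t ∈ range J, ∑ t' ∈ (range J).filter (fun t' => t < t'), (A + δ) * N ≤
        (J : ℝ) ^ 2 / 2 * ((A + δ) * N) := by
      have h5 := sum_symm (range J) (fun _ _ => (A + δ) * (N : ℝ)) (fun _ _ => rfl)
      have h6 : ∑ t ∈ range J, ∑ t' ∈ range J, (A + δ) * (N : ℝ) = (J : ℝ) ^ 2 * ((A + δ) * N) := by
        rw [Finset.sum_const, Finset.sum_const, nsmul_eq_mul, nsmul_eq_mul, card_range]
        ring
      have h7 : (0 : ℝ) ≤ ∑ t ∈ range J, (A + δ) * (N : ℝ) :=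
        Finset.sum_nonneg fun _ _ => by positivity
      linarith
    have h5 : ∑ t ∈ range J, ∑ t' ∈ (range J).filter (fun t' => t < t'),
          (if t' - t ∈ E then (N : ℝ) else 0) ≤ J * (E.card * N) := by
      have h6 : ∀ t ∈ range J, ∑ t' ∈ (range J).filter (fun t' => t < t'),
          (if t' - t ∈ E then (N : ℝ) else 0) ≤ E.card * N := by
        intro t _
        rw [← Finset.sum_filter, Finset.sum_const, nsmul_eq_mul]
        refine mul_le_mul_of_nonneg_right ?_ hN0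
        rw [Nat.cast_le]
        refine Finset.card_le_card_of_injOn (fun t' => t' - t) (fun t' ht' => ?_) ?_
        · rw [Finset.mem_coe, mem_filter] at ht'
          exact ht'.2
        · intro a ha c hc hac
          rw [Finset.mem_coe, mem_filter, mem_filter] at ha hc
          simp only at hac
          omega
      refine (Finset.sum_le_sum h6).trans ?_
      rw [Finset.sum_const, card_range, nsmul_eq_mul]
    have h6 : (J : ℝ) * (E.card * N) ≤ J * (δ * J * N) :=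
      mul_le_mul_of_nonneg_left (mul_le_mul_of_nonneg_right hE hN0) (Nat.cast_nonneg J)
    have h7 : (J : ℝ) ^ 2 / 2 * ((A + δ) * N) + J * (δ * J * N) =
        (J : ℝ) ^ 2 / 2 * ((A + 3 * δ) * N) := by ring
    have h8 : (J : ℝ) ^ 2 / 2 * ((A + 3 * δ) * N) ≤ (J : ℝ) ^ 2 / 2 * (B * N) := by
      refine mul_le_mul_of_nonneg_left (mul_le_mul_of_nonneg_right ?_ hN0) (by positivity)
      rw [hδ]
      linarith
    linarith

/-- the number of `n < N` at which a word of the set `B` stands -/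
def hits (d : ℕ → Fin b) {k : ℕ} (B : Finset (Fin k → Fin b)) (N : ℕ) : ℕ :=
  ((range N).filter fun n => (fun j : Fin k => d (n + j)) ∈ B).card

/-- the inequality for sets of words -/
theorem hits_le (d : ℕ → Fin b) (T : Set ℕ) (hT : T.Infinite) (k : ℕ) (ρ : ℝ)
    (h : ∀ t ∈ T, ∀ t' ∈ T, t < t' → UpperLe (rep d (t' - t) k) ρ) (B : Finset (Fin k → Fin b)) :
    UpperLe (hits d B) (Real.sqrt (B.card * ρ)) := by
  intro δ hδ
  -- `ρ ≥ 0`
  have hρ : 0 ≤ ρ := by
    obtain ⟨t, ht⟩ := hT.nonempty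
    obtain ⟨t', ht', htt⟩ := hT.exists_gt t
    by_contra hneg
    push Not at hneg
    have h1 := h t ht t' ht' htt (-ρ / 2) (by linarith)
    obtain ⟨N, hN, hN1⟩ := (h1.and (eventually_ge_atTop 1)).exists
    have h2 : (0 : ℝ) ≤ rep d (t' - t) k N := Nat.cast_nonneg _
    have h3 : (0 : ℝ) < N := by exact_mod_cast hN1
    nlinarith
  set β : ℝ := (B.card : ℝ) with hβ
  have hβ0 : 0 ≤ β := Nat.cast_nonneg _
  -- choose the parameters
  set δ1 : ℝ := δ ^ 2 / (12 * (β + 1)) with hδ1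
  have hδ10 : 0 < δ1 := by positivity
  obtain ⟨J, hJ⟩ : ∃ J : ℕ, 1 / δ1 < J := exists_nat_gt _
  have hJ0 : (0 : ℝ) < J := lt_trans (by positivity) hJ
  obtain ⟨T1, hT1, hT1c⟩ := hT.exists_subset_card_eq J
  set M : ℕ := T1.sup id with hM
  have h1 : ∀ᶠ N : ℕ in atTop, ∀ p ∈ T1 ×ˢ T1, p.1 < p.2 →
      (rep d (p.2 - p.1) k N : ℝ) ≤ (ρ + δ1) * N := by
    rw [Filter.eventually_all_finset]
    rintro ⟨t, t'⟩ hp
    rw [mem_product] at hp
    by_cases htt : t < t'
    · have h2 := h t (hT1 hp.1) t' (hT1 hp.2) htt δ1 hδ10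
      filter_upwards [h2] with N hN _
      exact hN
    · exact Filter.Eventually.of_forall fun N h3 => absurd h3 htt
  have h2 : ∀ᶠ N : ℕ in atTop, (M : ℝ) / δ1 ≤ N := by
    filter_upwards [eventually_ge_atTop ⌈(M : ℝ) / δ1⌉₊] with N hN
    exact (Nat.le_ceil _).trans (by exact_mod_cast hN)
  have h2' : ∀ᶠ N : ℕ in atTop, 2 * (M : ℝ) / δ ≤ N := by
    filter_upwards [eventually_ge_atTop ⌈2 * (M : ℝ) / δ⌉₊] with N hN
    exact (Nat.le_ceil _).trans (by exact_mod_cast hN)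
  filter_upwards [h1, h2, h2'] with N hN1 hN2 hN3
  rw [div_le_iff₀ hδ10] at hN2
  rw [div_le_iff₀ hδ] at hN3
  have hNN : (0 : ℝ) ≤ N := Nat.cast_nonneg N
  classical
  have h3 := basic (fun n => (fun j : Fin k => d (n + j))) (fun a => if a ∈ B then (1 : ℝ) else 0) 1
    (fun a => by split_ifs <;> norm_num) (fun a => by split_ifs <;> norm_num) T1 M N
    ((ρ + δ1) * N) (by
      rw [hT1c]
      exact_mod_cast hJ0)
    (fun t ht => Finset.le_sup (f := id) ht) (pairSum_le _ T1 _ (by positivity)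
      fun t ht t' ht' htt => by
      refine le_trans ?_ (hN1 (t, t') (mem_product.mpr ⟨ht, ht'⟩) htt)
      rw [Nat.cast_le]
      refine Finset.card_le_card fun n hn => ?_
      rw [mem_filter] at hn ⊢
      exact ⟨hn.1, fun j hj => congrFun hn.2 ⟨j, hj⟩⟩)
  have h4 : (hits d B N : ℝ) = ∑ n ∈ range N,
      if (fun j : Fin k => d (n + j)) ∈ B then (1 : ℝ) else 0 := by
    rw [hits, Finset.card_filter]
    push_cast
    rfl
  have h5 : ∑ a : Fin k → Fin b, (if a ∈ B then (1 : ℝ) else 0) ^ 2 = β := by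
    simp [hβ]
  rw [← h4, h5, hT1c] at h3
  have h6 : (N : ℝ) * β * (N / J + (ρ + δ1) * N + M) ≤
      (N * (Real.sqrt (β * ρ) + δ / 2)) ^ 2 := by
    have h7 : (N : ℝ) / J ≤ δ1 * N := by
      rw [div_le_iff₀ hJ0]
      have h8 : 1 ≤ δ1 * J := by
        rw [div_lt_iff₀ hδ10] at hJ
        linarith
      nlinarith
    have h8 : (N : ℝ) / J + (ρ + δ1) * N + M ≤ (ρ + 3 * δ1) * N := by linarith
    have h9 : (N : ℝ) * β * (N / J + (ρ + δ1) * N + M) ≤ N * β * ((ρ + 3 * δ1) * N) :=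
      mul_le_mul_of_nonneg_left h8 (by positivity)
    have h10 : Real.sqrt (β * ρ) ^ 2 = β * ρ := Real.sq_sqrt (by positivity)
    have h11 : 3 * δ1 * β ≤ δ ^ 2 / 4 := by
      rw [hδ1]
      have : 3 * (δ ^ 2 / (12 * (β + 1))) * β = δ ^ 2 / 4 * (β / (β + 1)) := by
        field_simp
        ring
      rw [this]
      have h12 : β / (β + 1) ≤ 1 := by
        rw [div_le_one (by linarith)]
        linarith
      have h13 : 0 ≤ δ ^ 2 / 4 := by positivity
      nlinarith
    have h12 : 0 ≤ Real.sqrt (β * ρ) := Real.sqrt_nonneg _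
    have h13 : (N * (Real.sqrt (β * ρ) + δ / 2)) ^ 2 =
        (N : ℝ) ^ 2 * (β * ρ + Real.sqrt (β * ρ) * δ + δ ^ 2 / 4) := by
      rw [mul_pow, add_sq, h10]
      ring
    have h14 : (N : ℝ) * β * ((ρ + 3 * δ1) * N) = (N : ℝ) ^ 2 * (β * ρ + 3 * δ1 * β) := by ring
    rw [h13]
    rw [h14] at h9
    refine h9.trans (mul_le_mul_of_nonneg_left ?_ (by positivity))
    have h15 : 0 ≤ Real.sqrt (β * ρ) * δ := by positivity
    linarith
  have h7 : Real.sqrt ((N : ℝ) * β * (N / J + (ρ + δ1) * N + M)) ≤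
      N * (Real.sqrt (β * ρ) + δ / 2) := by
    refine (Real.sqrt_le_sqrt h6).trans (le_of_eq ?_)
    exact Real.sqrt_sq (by positivity)
  linarith

end Pool.Agent.N736.RR
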