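import Pool.Agent.N736.RR.Real

/-! # Rare repetitions: a rational number without repetitions at the distances which are not
divisible by `P` -/

set_option autoImplicit false

open Finset Filter Topology

namespace Pool.Agent.N736.RR

open Pool.Agent.N915.ML (digit count IsWord Normal)

lemma digit_example (b P : ℕ) (hb : 2 ≤ b) (hP : 2 ≤ P) (i : ℕ) (hi : 1 ≤ i) :
    digit b (1 / ((b : ℝ) ^ P - 1)) i = if P ∣ i then 1 else 0 := by
  have hbR : (2 : ℝ) ≤ b := by exact_mod_cast hb
  set a : ℕ := i / P with ha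
  set c : ℕ := i % P with hc
  have hic : i = P * a + c := (Nat.div_add_mod i P).symm
  have hcP : c < P := Nat.mod_lt _ (by omega)
  set y : ℝ := (b : ℝ) ^ P with hy
  have hy4 : 4 ≤ y := by
    have h1 : (2 : ℝ) ^ 2 ≤ (b : ℝ) ^ P :=
      (pow_le_pow_left₀ (by norm_num) hbR 2).trans (pow_le_pow_right₀ (by linarith) hP)
    rw [hy]
    linarith
  have hy1 : 0 < y - 1 := by linarith
  set G : ℕ := ∑ j ∈ range a, (b ^ P) ^ j with hG
  have hGR : (G : ℝ) * (y - 1) = y ^ a - 1 := by
    rw [hG, hy]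
    push_cast
    exact geom_sum_mul _ _
  have h1 : 1 / (y - 1) * (b : ℝ) ^ i = (b : ℝ) ^ c * G + (b : ℝ) ^ c / (y - 1) := by
    rw [hic, pow_add, pow_mul, ← hy]
    have h2 : y ^ a = G * (y - 1) + 1 := by linarith
    rw [h2]
    field_simp
  have h2 : (b : ℝ) ^ c / (y - 1) < 1 := by
    rw [div_lt_one hy1]
    have h3 : (b : ℝ) ^ c * b ≤ y := by
      rw [hy, ← pow_succ]
      exact pow_le_pow_right₀ (by linarith) hcP
    have h4 : (1 : ℝ) ≤ (b : ℝ) ^ c := one_le_pow₀ (by linarith)
    nlinarith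
  have h3 : 0 ≤ (b : ℝ) ^ c / (y - 1) := by positivity
  have hfl : ⌊1 / (y - 1) * (b : ℝ) ^ i⌋ = (b : ℤ) ^ c * G := by
    rw [h1, Int.floor_eq_iff]
    push_cast
    constructor <;> linarith
  unfold Pool.Agent.N915.ML.digit
  rw [hfl]
  have hbZ : (2 : ℤ) ≤ b := by exact_mod_cast hb
  by_cases hd : P ∣ i
  · rw [if_pos hd]
    have hc0 : c = 0 := Nat.mod_eq_zero_of_dvd hd
    have ha1 : 1 ≤ a := by
      rcases Nat.eq_zero_or_pos a with h | h
      · rw [h, hc0] at hic
        omega
      · exact h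
    rw [hc0, pow_zero, one_mul]
    have h4 : ∃ G' : ℤ, (G : ℤ) = 1 + b * G' := by
      obtain ⟨a', ha'⟩ : ∃ a', a = a' + 1 := ⟨a - 1, by omega⟩
      refine ⟨(b : ℤ) ^ (P - 1) * ∑ j ∈ range a', ((b : ℤ) ^ P) ^ j, ?_⟩
      rw [hG, ha', Finset.sum_range_succ']
      push_cast
      rw [pow_zero, add_comm, ← mul_assoc, ← pow_succ', Nat.sub_add_cancel (by omega : 1 ≤ P),
        Finset.mul_sum]
      congr 1
      refine Finset.sum_congr rfl fun j _ => ?_
      rw [pow_succ]
      ring
    obtain ⟨G', hG'⟩ := h4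
    rw [hG', Int.add_mul_emod_self_left]
    exact Int.emod_eq_of_lt (by norm_num) (by linarith)
  · rw [if_neg hd]
    have hc0 : 1 ≤ c := by
      rcases Nat.eq_zero_or_pos c with h | h
      · exact absurd (Nat.dvd_of_mod_eq_zero h) hd
      · exact h
    obtain ⟨c', hc'⟩ : ∃ c', c = c' + 1 := ⟨c - 1, by omega⟩
    rw [hc', pow_succ, mul_assoc, mul_comm ((b : ℤ)) _, ← mul_assoc]
    exact Int.mul_emod_left _ _

theorem sharp (b P : ℕ) (hb : 2 ≤ b) (hP : 2 ≤ P) :
    ∃ q : ℚ, ¬ Normal b (q : ℝ) ∧ ∀ r k N : ℕ, ¬ P ∣ r → P ≤ k → repR b (q : ℝ) r k N = 0 := by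
  refine ⟨1 / ((b : ℚ) ^ P - 1), ?_, ?_⟩
  · push_cast
    intro h
    have hbZ : (2 : ℤ) ≤ b := by exact_mod_cast hb
    have h1 := h 2 (by norm_num) (fun _ => 1) (fun j _ => ⟨by norm_num, by
      show (1 : ℤ) < b
      omega⟩)
    have h2 : ∀ N, count b (1 / ((b : ℝ) ^ P - 1)) 2 (fun _ => 1) N = 0 := by
      intro N
      unfold Pool.Agent.N915.ML.count
      rw [Finset.card_eq_zero, Finset.filter_eq_empty_iff]
      intro i hi h3
      rw [mem_Icc] at hi
      have h4 := h3 0 (by norm_num)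
      have h5 := h3 1 (by norm_num)
      rw [digit_example b P hb hP _ (by omega)] at h4 h5
      have h6 : P ∣ i + 0 := by
        by_contra h7
        rw [if_neg h7] at h4
        exact absurd h4 (by norm_num)
      have h7 : P ∣ i + 1 := by
        by_contra h8
        rw [if_neg h8] at h5
        exact absurd h5 (by norm_num)
      have h8 : P ∣ 1 := by
        rw [add_zero] at h6
        exact (Nat.dvd_add_right h6).1 h7
      exact absurd (Nat.le_of_dvd one_pos h8) (by omega)
    simp only [h2, Nat.cast_zero, zero_div] at h1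
    have h3 := tendsto_nhds_unique h1 tendsto_const_nhds
    have h4 : (0 : ℝ) < 1 / (b : ℝ) ^ 2 := by
      have : (0 : ℝ) < b := by exact_mod_cast (by omega : 0 < b)
      positivity
    linarith
  · push_cast
    intro r k N hr hk
    rw [repR, Finset.card_eq_zero, Finset.filter_eq_empty_iff]
    intro i hi h3
    rw [mem_Icc] at hi
    obtain ⟨j, hj, hdiv⟩ : ∃ j < P, P ∣ i + j := by
      rcases Nat.eq_zero_or_pos (i % P) with h | h
      · exact ⟨0, by omega, Nat.dvd_of_mod_eq_zero (by simpa using h)⟩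
      · have hlt := Nat.mod_lt i (by omega : 0 < P)
        refine ⟨P - i % P, by omega, ?_⟩
        have h4 := Nat.div_add_mod i P
        refine ⟨i / P + 1, ?_⟩
        rw [mul_add, mul_one]
        omega
    have h4 := h3 j (by omega)
    rw [digit_example b P hb hP _ (by omega), digit_example b P hb hP _ (by omega), if_pos hdiv] at h4
    have h5 : ¬ P ∣ i + r + j := by
      intro h6
      rw [show i + r + j = (i + j) + r by ring] at h6
      exact hr ((Nat.dvd_add_right hdiv).1 h6)
    rw [if_neg h5] at h4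
    exact absurd h4 (by norm_num)

end Pool.Agent.N736.RR
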