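import Pool.Agent.N736.RR.Core

/-! # Rare repetitions imply equidistribution of words: one stage -/

set_option autoImplicit false

open Finset

namespace Pool.Agent.N736.RR

variable {b : ℕ}

/-- the number of `n < N` with `d (n + j) = d (n + r + j)` for all `j < k` -/
def rep (d : ℕ → Fin b) (r k N : ℕ) : ℕ :=
  ((range N).filter fun n => ∀ j < k, d (n + j) = d (n + r + j)).card

/-- the number of `n < N` at which the word `v` stands -/
def occ (d : ℕ → Fin b) {l : ℕ} (v : Fin l → Fin b) (N : ℕ) : ℕ :=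
  ((range N).filter fun n => (fun j : Fin l => d (n + j)) = v).card

lemma occ_real (d : ℕ → Fin b) {l : ℕ} (v : Fin l → Fin b) (N : ℕ) :
    (occ d v N : ℝ) = ∑ n ∈ range N, if (fun j : Fin l => d (n + j)) = v then (1 : ℝ) else 0 := by
  rw [occ, Finset.card_filter]
  push_cast
  rfl

/-- blocks -/
def UU (d : ℕ → Fin b) (l m s : ℕ) (n : ℕ) : (Fin m → (Fin l → Fin b)) × (Fin s → Fin b) :=
  (fun i j => d (n + i * l + j), fun j => d (n + m * l + j))

lemma coin_UU_le (d : ℕ → Fin b) (l m s r N : ℕ) :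
    coin (UU d l m s) r N ≤ rep d r (m * l + s) N := by
  refine Finset.card_le_card fun n hn => ?_
  rw [mem_filter] at hn ⊢
  refine ⟨hn.1, fun j hj => ?_⟩
  have h := hn.2
  simp only [UU, Prod.mk.injEq] at h
  rcases lt_or_ge j (m * l) with h1 | h1
  · have hl : 0 < l := Nat.pos_of_ne_zero fun h0 => by
      rw [h0] at h1
      simp at h1
    have h2 : j / l < m := Nat.div_lt_of_lt_mul (by rwa [mul_comm])
    have h3 := congrFun (congrFun h.1 ⟨j / l, h2⟩) ⟨j % l, Nat.mod_lt _ hl⟩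
    simp only at h3
    have h4 := Nat.div_add_mod j l
    rw [mul_comm] at h4
    rw [show n + j / l * l + j % l = n + j by omega,
      show n + r + j / l * l + j % l = n + r + j by omega] at h3
    exact h3
  · have h3 := congrFun h.2 ⟨j - m * l, by omega⟩
    simp only at h3
    rw [show n + m * l + (j - m * l) = n + j by omega,
      show n + r + m * l + (j - m * l) = n + r + j by omega] at h3
    exact h3

/-- the weight of a block -/
noncomputable def gg {l : ℕ} (v : Fin l → Fin b) (lam : ℝ) (a : Fin l → Fin b) : ℝ :=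
  Real.exp (lam * ((if a = v then 1 else 0) - 1 / (b : ℝ) ^ l))

/-- the weight of a word -/
noncomputable def ff {l : ℕ} (v : Fin l → Fin b) (lam : ℝ) (m s : ℕ)
    (p : (Fin m → (Fin l → Fin b)) × (Fin s → Fin b)) : ℝ :=
  ∏ i, gg v lam (p.1 i)

lemma inv_le_one (hb : 1 ≤ b) (l : ℕ) : 1 / (b : ℝ) ^ l ≤ 1 := by
  have h1 : (1 : ℝ) ≤ b := by exact_mod_cast hb
  have h2 : (1 : ℝ) ≤ (b : ℝ) ^ l := one_le_pow₀ h1
  rw [div_le_one (by linarith)]
  exact h2

lemma sum_gg (hb : 1 ≤ b) {l : ℕ} (v : Fin l → Fin b) (lam : ℝ) (hlam : |lam| ≤ 1 / 2) :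
    ∑ a, gg v lam a ^ 2 ≤ (b : ℝ) ^ l * Real.exp (4 * lam ^ 2) := by
  have hb1 : (1 : ℝ) ≤ b := by exact_mod_cast hb
  have hq1 : (1 : ℝ) ≤ (b : ℝ) ^ l := one_le_pow₀ hb1
  have hp1 := inv_le_one hb l
  set q : ℝ := (b : ℝ) ^ l with hq
  have hp0 : 0 < 1 / q := by positivity
  have h1 : ∀ a : Fin l → Fin b, gg v lam a ^ 2 ≤
      1 + (2 * lam) * ((if a = v then 1 else 0) - 1 / q) +
        (2 * lam) ^ 2 * ((if a = v then 1 else 0) - 1 / q) ^ 2 := by
    intro a
    rw [gg, ← Real.exp_nat_mul]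
    push_cast
    rw [show 2 * (lam * ((if a = v then (1 : ℝ) else 0) - 1 / q)) =
      (2 * lam) * ((if a = v then (1 : ℝ) else 0) - 1 / q) by ring]
    have h2 : |(2 * lam) * ((if a = v then (1 : ℝ) else 0) - 1 / q)| ≤ 1 := by
      rw [abs_mul, abs_mul]
      have h3 : |(if a = v then (1 : ℝ) else 0) - 1 / q| ≤ 1 := by
        rw [abs_le]
        split_ifs <;> constructor <;> linarith
      have h4 : |(2 : ℝ)| = 2 := by norm_num
      rw [h4]
      have h5 := abs_nonneg lam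
      have h6 := abs_nonneg ((if a = v then (1 : ℝ) else 0) - 1 / q)
      nlinarith
    have h3 := Real.abs_exp_sub_one_sub_id_le h2
    rw [abs_le] at h3
    rw [← mul_pow]
    linarith [h3.2]
  have hcard : (Fintype.card (Fin l → Fin b) : ℝ) = q := by
    rw [Fintype.card_fun, Fintype.card_fin, Fintype.card_fin, hq]
    push_cast
    rfl
  have h2 : ∑ a : Fin l → Fin b, ((if a = v then (1 : ℝ) else 0) - 1 / q) = 0 := by
    rw [Finset.sum_sub_distrib, Finset.sum_ite_eq' univ v, if_pos (mem_univ v), Finset.sum_const,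
      Finset.card_univ, nsmul_eq_mul, hcard]
    field_simp
    ring
  have h3 : ∑ a : Fin l → Fin b, ((if a = v then (1 : ℝ) else 0) - 1 / q) ^ 2 ≤ q := by
    calc ∑ a : Fin l → Fin b, ((if a = v then (1 : ℝ) else 0) - 1 / q) ^ 2
        ≤ ∑ _a : Fin l → Fin b, (1 : ℝ) := Finset.sum_le_sum fun a _ => by
          rw [sq_le_one_iff_abs_le_one, abs_le]
          split_ifs <;> constructor <;> linarith
      _ = q := by
          rw [Finset.sum_const, Finset.card_univ, nsmul_eq_mul, mul_one, hcard]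
  refine (Finset.sum_le_sum fun a _ => h1 a).trans ?_
  rw [Finset.sum_add_distrib, Finset.sum_add_distrib, ← Finset.mul_sum, ← Finset.mul_sum, h2,
    Finset.sum_const, Finset.card_univ, nsmul_eq_mul, hcard]
  have h4 : 1 + 4 * lam ^ 2 ≤ Real.exp (4 * lam ^ 2) := by
    have := Real.add_one_le_exp (4 * lam ^ 2)
    linarith
  have h5 : (2 * lam) ^ 2 * ∑ a : Fin l → Fin b, ((if a = v then (1 : ℝ) else 0) - 1 / q) ^ 2 ≤
      (2 * lam) ^ 2 * q := mul_le_mul_of_nonneg_left h3 (sq_nonneg _)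
  have h6 : q * (1 + 4 * lam ^ 2) ≤ q * Real.exp (4 * lam ^ 2) :=
    mul_le_mul_of_nonneg_left h4 (by linarith)
  nlinarith

lemma sum_ff (hb : 1 ≤ b) {l : ℕ} (v : Fin l → Fin b) (lam : ℝ) (hlam : |lam| ≤ 1 / 2) (m s : ℕ) :
    ∑ p, ff v lam m s p ^ 2 ≤ (b : ℝ) ^ (m * l + s) * Real.exp (4 * lam ^ 2 * m) := by
  rw [Fintype.sum_prod_type]
  have h1 : ∀ p1 : Fin m → (Fin l → Fin b), ∑ p2 : Fin s → Fin b, ff v lam m s (p1, p2) ^ 2 =
      (b : ℝ) ^ s * ∏ i, gg v lam (p1 i) ^ 2 := by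
    intro p1
    simp only [ff]
    rw [Finset.sum_const, Finset.card_univ, Fintype.card_fun, Fintype.card_fin, Fintype.card_fin,
      nsmul_eq_mul, Finset.prod_pow]
    push_cast
    rfl
  simp only [h1]
  rw [← Finset.mul_sum, ← Fintype.sum_pow (fun a => gg v lam a ^ 2) m]
  have h2 := sum_gg hb v lam hlam
  have h3 : 0 ≤ ∑ a, gg v lam a ^ 2 := Finset.sum_nonneg fun a _ => sq_nonneg _
  have h4 := pow_le_pow_left₀ h3 h2 m
  have h5 : (b : ℝ) ^ (m * l + s) * Real.exp (4 * lam ^ 2 * m) =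
      (b : ℝ) ^ s * ((b : ℝ) ^ l * Real.exp (4 * lam ^ 2)) ^ m := by
    rw [mul_pow, ← Real.exp_nat_mul, ← pow_mul, pow_add, mul_comm l m,
      mul_comm (4 * lam ^ 2) (m : ℝ)]
    ring
  rw [h5]
  exact mul_le_mul_of_nonneg_left h4 (by positivity)

lemma ff_UU (d : ℕ → Fin b) {l : ℕ} (v : Fin l → Fin b) (lam : ℝ) (m s n : ℕ) :
    ff v lam m s (UU d l m s n) = Real.exp (∑ i ∈ range m,
      lam * ((if (fun j : Fin l => d (n + i * l + j)) = v then 1 else 0) - 1 / (b : ℝ) ^ l)) := by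
  rw [Real.exp_sum, ← Fin.prod_univ_eq_prod_range (fun i => Real.exp
    (lam * ((if (fun j : Fin l => d (n + i * l + j)) = v then 1 else 0) - 1 / (b : ℝ) ^ l))) m]
  rfl

/-- lower bound for the sum of the weights -/
lemma sum_ff_UU (d : ℕ → Fin b) {l : ℕ} (v : Fin l → Fin b) (lam ε : ℝ) (m s N : ℕ)
    (hN : ((m * l : ℕ) : ℝ) ≤ ε / 2 * N)
    (h : |lam| * (ε * N) ≤ lam * (occ d v N - N / (b : ℝ) ^ l)) :
    N * Real.exp (|lam| * m * (ε / 2)) ≤ ∑ n ∈ range N, ff v lam m s (UU d l m s n) := by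
  have hN0 : (0 : ℝ) ≤ N := Nat.cast_nonneg N
  set y : ℕ → ℝ := fun n => ∑ i ∈ range m,
      lam * ((if (fun j : Fin l => d (n + i * l + j)) = v then 1 else 0) - 1 / (b : ℝ) ^ l) with hy
  set y0 : ℝ := |lam| * m * (ε / 2) with hy0
  have h1 : N * y0 ≤ ∑ n ∈ range N, y n := by
    rw [hy, Finset.sum_comm]
    have h2 : ∀ i ∈ range m, N * (|lam| * (ε / 2)) ≤ ∑ n ∈ range N,
        lam * ((if (fun j : Fin l => d (n + i * l + j)) = v then 1 else 0) - 1 / (b : ℝ) ^ l) := by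
      intro i hi
      rw [mem_range] at hi
      rw [← Finset.mul_sum, Finset.sum_sub_distrib, Finset.sum_const, card_range, nsmul_eq_mul]
      have h3 := sum_shift_ge (fun n => if (fun j : Fin l => d (n + j)) = v then (1 : ℝ) else 0) 1
        (fun n => by split_ifs <;> norm_num) (fun n => by split_ifs <;> norm_num) N (i * l)
      have h4 := sum_shift_le (fun n => if (fun j : Fin l => d (n + j)) = v then (1 : ℝ) else 0) 1
        (fun n => by split_ifs <;> norm_num) (fun n => by split_ifs <;> norm_num) N (i * l)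
      rw [← occ_real] at h3 h4
      set A : ℝ := ∑ n ∈ range N,
        if (fun j : Fin l => d (n + i * l + j)) = v then (1 : ℝ) else 0 with hA
      have h5 : ((i * l : ℕ) : ℝ) ≤ ε / 2 * N := by
        refine le_trans ?_ hN
        exact_mod_cast Nat.mul_le_mul_right l hi.le
      have h6 : |A - occ d v N| ≤ ε / 2 * N := by
        rw [abs_le]
        constructor <;> linarith
      have h7 : |lam * (A - occ d v N)| ≤ |lam| * (ε / 2 * N) := by
        rw [abs_mul]
        exact mul_le_mul_of_nonneg_left h6 (abs_nonneg _)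
      rw [abs_le] at h7
      have h8 : lam * (A - N * (1 / (b : ℝ) ^ l)) =
          lam * (occ d v N - N / (b : ℝ) ^ l) + lam * (A - occ d v N) := by ring
      rw [h8]
      nlinarith [h7.1]
    have h3 := Finset.sum_le_sum h2
    rw [Finset.sum_const, card_range, nsmul_eq_mul] at h3
    refine le_trans (le_of_eq ?_) h3
    rw [hy0]
    ring
  have h2 : ∀ n ∈ range N, Real.exp y0 * (1 + y n - y0) ≤ ff v lam m s (UU d l m s n) := by
    intro n _
    rw [ff_UU]
    have h3 : Real.exp (y n) = Real.exp y0 * Real.exp (y n - y0) := by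
      rw [← Real.exp_add]
      congr 1
      ring
    change _ ≤ Real.exp (y n)
    rw [h3]
    refine mul_le_mul_of_nonneg_left ?_ (Real.exp_pos _).le
    have := Real.add_one_le_exp (y n - y0)
    linarith
  refine le_trans ?_ (Finset.sum_le_sum h2)
  rw [← Finset.mul_sum, Finset.sum_sub_distrib, Finset.sum_add_distrib, Finset.sum_const,
    Finset.sum_const, card_range, nsmul_eq_mul, nsmul_eq_mul]
  have h4 := Real.exp_pos y0
  nlinarith

lemma ff_nonneg {l : ℕ} (v : Fin l → Fin b) (lam : ℝ) (m s : ℕ)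
    (p : (Fin m → (Fin l → Fin b)) × (Fin s → Fin b)) : 0 ≤ ff v lam m s p :=
  Finset.prod_nonneg fun i _ => (Real.exp_pos _).le

lemma ff_le (hb : 1 ≤ b) {l : ℕ} (v : Fin l → Fin b) (lam : ℝ) (m s : ℕ)
    (p : (Fin m → (Fin l → Fin b)) × (Fin s → Fin b)) :
    ff v lam m s p ≤ Real.exp (|lam| * m) := by
  have h1 : ∀ a : Fin l → Fin b, gg v lam a ≤ Real.exp |lam| := by
    intro a
    rw [gg]
    refine Real.exp_le_exp.mpr ((le_abs_self _).trans ?_)
    rw [abs_mul]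
    have hp1 := inv_le_one hb l
    have hp0 : 0 ≤ 1 / (b : ℝ) ^ l := by positivity
    have h3 : |(if a = v then (1 : ℝ) else 0) - 1 / (b : ℝ) ^ l| ≤ 1 := by
      rw [abs_le]
      split_ifs <;> constructor <;> linarith
    exact mul_le_of_le_one_right (abs_nonneg _) h3
  calc ff v lam m s p ≤ ∏ _i : Fin m, Real.exp |lam| :=
        Finset.prod_le_prod (fun i _ => (Real.exp_pos _).le) fun i _ => h1 _
    _ = Real.exp (|lam| * m) := by
        rw [Finset.prod_const, Finset.card_univ, Fintype.card_fin, ← Real.exp_nat_mul, mul_comm]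

/-- one word, one direction -/
lemma one_word (hb : 2 ≤ b) {l : ℕ} (hl : 1 ≤ l) (v : Fin l → Fin b) (ε : ℝ) (hε : 0 < ε)
    (hε1 : ε ≤ 1) (m s : ℕ) (hs : s ≤ m * l)
    (hm : 71 / ε ^ 2 ≤ m) (T : Finset ℕ) (hT : b ^ (m * l + s) ≤ T.card) (M N : ℕ)
    (hM : ∀ t ∈ T, t ≤ M) (hN : ((m * l : ℕ) : ℝ) ≤ ε / 2 * N) (hN1 : 1 ≤ N)
    (hN2 : (M : ℝ) * (b : ℝ) ^ (m * l + s) ≤ N) (hN3 : (M : ℝ) * Real.exp m ≤ N)
    (d : ℕ → Fin b)
    (hR : (pairSum (fun r => rep d r (m * l + s) N) T : ℝ) ≤ (T.card : ℝ) ^ 2 / 2 *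
      (Real.exp (ε ^ 2 * ((m * l + s : ℕ) : ℝ) / (64 * l)) / (b : ℝ) ^ (m * l + s) * N))
    (sg : ℝ) (hsg : |sg| = 1) :
    sg * (occ d v N - N / (b : ℝ) ^ l) < ε * N := by
  by_contra hcon
  push Not at hcon
  have hb1 : 1 ≤ b := by omega
  have hb0 : (0 : ℝ) < b := by exact_mod_cast hb1
  have hb1' : (1 : ℝ) ≤ b := by exact_mod_cast hb1
  have hlR : (0 : ℝ) < l := by exact_mod_cast hl
  set lam : ℝ := sg * (ε / 8) with hlam
  have hal : |lam| = ε / 8 := by
    rw [hlam, abs_mul, hsg, one_mul, abs_of_pos (by positivity)]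
  have hlam2 : lam ^ 2 = ε ^ 2 / 64 := by
    rw [← sq_abs, hal]
    ring
  have hNR : (1 : ℝ) ≤ N := by exact_mod_cast hN1
  have hN0 : (0 : ℝ) < N := by linarith
  set k : ℕ := m * l + s with hk
  set E : ℝ := Real.exp (ε ^ 2 * (k : ℝ) / (64 * l)) with hE
  have hE1 : 1 ≤ E := Real.one_le_exp (by positivity)
  have hT0 : 0 < T.card := lt_of_lt_of_le (Nat.pow_pos (by omega)) hT
  have hbkp : 0 < (b : ℝ) ^ k := by positivity
  have h1 := sum_ff_UU d v lam ε m s N hN (by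
    rw [hal, hlam]
    have := mul_le_mul_of_nonneg_left hcon (show (0 : ℝ) ≤ ε / 8 by positivity)
    linarith)
  have h2 := basic (UU d l m s) (ff v lam m s) (Real.exp (|lam| * m)) (ff_nonneg v lam m s)
    (ff_le hb1 v lam m s) T M N (E / (b : ℝ) ^ k * N) hT0 hM (by
      refine le_trans ?_ hR
      rw [Nat.cast_le]
      refine Finset.sum_le_sum fun t _ => Finset.sum_le_sum fun t' _ => ?_
      exact coin_UU_le d l m s (t' - t) N)
  have h3 := sum_ff hb1 v lam (by rw [hal]; linarith) m s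
  have hq : (N : ℝ) / (b : ℝ) ^ k ≤ E / (b : ℝ) ^ k * N := by
    rw [div_mul_eq_mul_div]
    refine div_le_div_of_nonneg_right ?_ hbkp.le
    nlinarith
  have h4 : (N : ℝ) / T.card + E / (b : ℝ) ^ k * N + M ≤ 3 * (E / (b : ℝ) ^ k * N) := by
    have h5 : (N : ℝ) / T.card ≤ N / (b : ℝ) ^ k := by
      refine div_le_div_of_nonneg_left hN0.le hbkp ?_
      exact_mod_cast hT
    have h6 : (M : ℝ) ≤ N / (b : ℝ) ^ k := by
      rw [le_div_iff₀ hbkp]
      exact hN2
    linarith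
  have hS0 : 0 ≤ ∑ p, ff v lam m s p ^ 2 := Finset.sum_nonneg fun p _ => sq_nonneg _
  have h5 : N * (∑ p, ff v lam m s p ^ 2) *
      (N / T.card + E / (b : ℝ) ^ k * N + M) ≤
      (N * (2 * Real.exp ((ε ^ 2 / 16 * m + ε ^ 2 * (k : ℝ) / (64 * l)) / 2))) ^ 2 := by
    have h6 : N * (∑ p, ff v lam m s p ^ 2) *
        (N / T.card + E / (b : ℝ) ^ k * N + M) ≤
        N * ((b : ℝ) ^ k * Real.exp (4 * lam ^ 2 * m)) *
          (3 * (E / (b : ℝ) ^ k * N)) := by
      refine mul_le_mul (mul_le_mul_of_nonneg_left h3 hN0.le) h4 (by positivity) (by positivity)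
    refine h6.trans ?_
    have h8 : (N * (2 * Real.exp ((ε ^ 2 / 16 * m + ε ^ 2 * (k : ℝ) / (64 * l)) / 2))) ^ 2 =
        4 * ((N : ℝ) ^ 2 * (Real.exp (4 * lam ^ 2 * m) * E)) := by
      have h9 : Real.exp ((ε ^ 2 / 16 * m + ε ^ 2 * (k : ℝ) / (64 * l)) / 2) ^ 2 =
          Real.exp (4 * lam ^ 2 * m) * E := by
        rw [← Real.exp_nat_mul, hE, ← Real.exp_add]
        congr 1
        rw [hlam2]
        push_cast
        ring
      rw [← h9]
      ring
    have h11 : N * ((b : ℝ) ^ k * Real.exp (4 * lam ^ 2 * m)) *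
          (3 * (E / (b : ℝ) ^ k * N)) =
        3 * ((N : ℝ) ^ 2 * (Real.exp (4 * lam ^ 2 * m) * E)) := by
      field_simp
    have h12 : 0 ≤ (N : ℝ) ^ 2 * (Real.exp (4 * lam ^ 2 * m) * E) := by
      positivity
    rw [h8, h11]
    linarith
  have h6 : Real.sqrt (N * (∑ p, ff v lam m s p ^ 2) *
      (N / T.card + E / (b : ℝ) ^ k * N + M)) ≤
      N * (2 * Real.exp ((ε ^ 2 / 16 * m + ε ^ 2 * (k : ℝ) / (64 * l)) / 2)) := by
    refine (Real.sqrt_le_sqrt h5).trans (le_of_eq ?_)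
    exact Real.sqrt_sq (by positivity)
  have hm0 : (0 : ℝ) ≤ m := Nat.cast_nonneg m
  have h7 : (M : ℝ) * Real.exp (|lam| * m) ≤ N := by
    refine le_trans ?_ hN3
    refine mul_le_mul_of_nonneg_left (Real.exp_le_exp.mpr ?_) (Nat.cast_nonneg M)
    have h8 : |lam| ≤ 1 := by
      rw [hal]
      linarith
    exact mul_le_of_le_one_left hm0 h8
  have h8 : N * Real.exp (|lam| * m * (ε / 2)) ≤
      N + N * (2 * Real.exp ((ε ^ 2 / 16 * m + ε ^ 2 * (k : ℝ) / (64 * l)) / 2)) := by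
    linarith
  have h9 : Real.exp (|lam| * m * (ε / 2)) ≤
      1 + 2 * Real.exp ((ε ^ 2 / 16 * m + ε ^ 2 * (k : ℝ) / (64 * l)) / 2) := by
    have h10 : N * Real.exp (|lam| * m * (ε / 2)) ≤
        N * (1 + 2 * Real.exp ((ε ^ 2 / 16 * m + ε ^ 2 * (k : ℝ) / (64 * l)) / 2)) := by linarith
    exact le_of_mul_le_mul_left h10 hN0
  have hkR : (k : ℝ) ≤ 2 * (m * l) := by
    have : k ≤ 2 * (m * l) := by omega
    exact_mod_cast this
  have hX : (ε ^ 2 / 16 * m + ε ^ 2 * (k : ℝ) / (64 * l)) / 2 ≤ 3 / 64 * (ε ^ 2 * m) := by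
    have h10 : ε ^ 2 * (k : ℝ) / (64 * l) ≤ 1 / 32 * (ε ^ 2 * m) := by
      rw [div_le_iff₀ (by positivity)]
      have h11 : ε ^ 2 * (k : ℝ) ≤ ε ^ 2 * (2 * (m * l)) :=
        mul_le_mul_of_nonneg_left hkR (sq_nonneg _)
      linarith
    have h14 : ε ^ 2 / 16 * m = 1 / 16 * (ε ^ 2 * m) := by ring
    linarith
  have h10 : Real.exp (1 / 16 * (ε ^ 2 * m)) ≤ 3 * Real.exp (3 / 64 * (ε ^ 2 * m)) := by
    have e : |lam| * m * (ε / 2) = 1 / 16 * (ε ^ 2 * m) := by
      rw [hal]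
      ring
    rw [e] at h9
    have h11 := Real.exp_le_exp.mpr hX
    have h12 : 1 ≤ Real.exp (3 / 64 * (ε ^ 2 * m)) := Real.one_le_exp (by positivity)
    linarith
  have h11 : 71 ≤ ε ^ 2 * m := by
    rw [div_le_iff₀ (by positivity)] at hm
    linarith
  have h12 : Real.exp (1 / 16 * (ε ^ 2 * m)) =
      Real.exp (1 / 64 * (ε ^ 2 * m)) * Real.exp (3 / 64 * (ε ^ 2 * m)) := by
    rw [← Real.exp_add]
    congr 1
    ring
  rw [h12] at h10
  have h13 : Real.exp (1 / 64 * (ε ^ 2 * m)) ≤ 3 :=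
    le_of_mul_le_mul_right h10 (Real.exp_pos _)
  have h14 : Real.exp (71 / 64) ≤ 3 := (Real.exp_le_exp.mpr (by linarith)).trans h13
  have h15 : (3 : ℝ) < Real.exp (71 / 64) := by
    have h16 : Real.exp (71 / 64) = Real.exp 1 * Real.exp (7 / 64) := by
      rw [← Real.exp_add]
      norm_num
    rw [h16]
    have h17 := Real.exp_one_gt_d9
    have h18 := Real.add_one_le_exp (7 / 64 : ℝ)
    nlinarith
  linarith

end Pool.Agent.N736.RR
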